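import Pool.Agent.J4H93.KT.Symm

/-!
Assembling the facts about a representative row from the kernel checks.
-/

namespace Pool.Agent.J4H93.KT

open Relation

/-- the mask of the nodes below `R` -/
def low (R : ℕ) : ℕ := Nat.sub (Nat.pow 2 R) 1

noncomputable def k0chk (a R Cd : ℕ) (PT : Tr) (r0 N1 : ℕ) : Bool :=
  Nat.beq N1 (Nat.land (low R) (scf a R Cd PT r0))

def bchk (A R : ℕ) : Bool := Nat.blt A (Nat.pow 2 (3 * R))

def nechk (A R : ℕ) : Bool := Nat.beq (Nat.land A (low R)) (low R)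

def fuchk (A R : ℕ) : Bool := Nat.beq A (low R)

noncomputable def rcchk (a R Cd : ℕ) (PT : Tr) (g : ℕ → ℕ) (fuel r0 o : ℕ) : Bool :=
  cM g fuel (Nat.land (low R) (prf a R Cd PT r0)) o

section

variable {a R C Cd U : ℕ} {PT : Tr}

/-- bounds for the masks of all levels -/
def Bd (R : ℕ) (Ms : List (ℕ → ℕ)) : Prop :=
  ∀ M ∈ Ms, ∀ n < 3 * R, ∀ m, (M n).testBit m = true → m < 3 * R

theorem Bd_nil (R : ℕ) : Bd R [] := by
  intro M hM
  exact absurd hM (by simp)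

theorem TabOK.surjE (h : TabOK a R C Cd U PT) (u y : Row a) (hy : RE u y) :
    ∃ r < R, eR a R Cd r = y := h.surj y hy.1

theorem TabOK.base (h : TabOK a R C Cd U PT) (r0 N1 : ℕ)
    (hk' : k0chk a R Cd PT r0 N1 = true) :
    Lev RE RD (eR a R Cd) (3 * R) N1 (eR a R Cd r0) [] N1 := by
  have hk : N1 = Nat.land (Nat.sub (Nat.pow 2 R) 1) (scf a R Cd PT r0) := (beq_iff _ _).1 hk'
  have hbit : ∀ n, N1.testBit n = true ↔ n < R ∧ (scf a R Cd PT r0).testBit n = true := by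
    intro n
    rw [hk, land_bit, Bool.and_eq_true]
    have h1 : (Nat.sub (Nat.pow 2 R) 1).testBit n = true ↔ n < R := by
      have h2 : Nat.sub (Nat.pow 2 R) 1 = 2 ^ R - 1 := rfl
      rw [h2, Nat.testBit_two_pow_sub_one, decide_eq_true_eq]
    rw [h1]
  refine lev_base _ ?_ ?_
  · intro n hn
    obtain ⟨h1, h2⟩ := (hbit n).1 hn
    exact ⟨by omega, (h.scf_bit (by omega)).1 h2⟩
  · intro y hy
    obtain ⟨n, hn, rfl⟩ := h.surjE _ y hy
    exact ⟨n, rfl, (hbit n).2 ⟨hn, (h.scf_bit (by omega)).2 hy⟩⟩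

theorem TabOK.next (h : TabOK a R C Cd U PT) {x : Row a} {N1 : ℕ} {Ms : List (ℕ → ℕ)}
    {All All' : ℕ} (hL : Lev RE RD (eR a R Cd) (3 * R) N1 x Ms All) (hMs : Bd R Ms)
    (w fuel fuel' : ℕ) (g ct M ord : ℕ → ℕ)
    (hb : bchk All' R = true)
    (hl : below (fun n => lnkchk (dcf a R C U) N1 Ms w fuel' g ct n) (3 * R) = true)
    (hc : below (fun r => levchk R fuel (prf a R Cd PT) All All' g M ord r) R = true) :
    Lev RE RD (eR a R Cd) (3 * R) N1 x (M :: Ms) All' ∧ Bd R (M :: Ms) := by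
  have h1 := lev_of_chk RD_refl RD_symm hL (dcf a R C U) dpf (h.dcf_sound) hMs
    (prf a R Cd PT) (fun r _ n hn => h.prf_bit hn) (fun r => eR_add r) h.surjE
    (Nat.le_of_ble_eq_true hb) w fuel fuel' g ct M ord ((below_iff _ _).1 hl)
    ((below_iff _ _).1 hc)
  refine ⟨h1.1, ?_⟩
  intro M' hM'
  rcases List.mem_cons.1 hM' with h2 | h2
  · subst h2; exact h1.2
  · exact hMs M' h2

theorem TabOK.fin (h : TabOK a R C Cd U PT) {x : Row a} {N1 : ℕ} {Ms : List (ℕ → ℕ)}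
    {All : ℕ} (hL : Lev RE RD (eR a R Cd) (3 * R) N1 x Ms All) (hMs : Bd R Ms)
    (w fuel fuel' : ℕ) (g ct ord : ℕ → ℕ)
    (hl : below (fun n => lnkchk (dcf a R C U) N1 Ms w fuel' g ct n) (3 * R) = true)
    (hc : below (fun r => finchk fuel (prf a R Cd PT) All g ord r) R = true) (z : Row a) :
    Good RE RD x z (Ms.length + 1) :=
  fin_of_chk RD_refl RD_symm hL (dcf a R C U) dpf (h.dcf_sound) hMs
    (prf a R Cd PT) (fun r _ n hn => h.prf_bit hn) h.inj h.surjE w fuel fuel' g ct ord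
    ((below_iff _ _).1 hl) ((below_iff _ _).1 hc) z

theorem TabOK.lrF (h : TabOK a R C Cd U PT) (r0 : ℕ) (fuel fuel' : ℕ)
    (g ct : ℕ → ℕ) (o : ℕ)
    (hl : below (fun n => g2chk (dcf a R C U) (prf a R Cd PT) (3 * R) fuel' g ct n) R = true)
    (hc : rcchk a R Cd PT g fuel r0 o = true)
    (z' z'' : Row a) (hz' : PrR z') (hz'' : PrR z'') (he' : RE z' (eR a R Cd r0))
    (he'' : RE z'' (eR a R Cd r0)) :
    ReflTransGen (LR RE RD PrR (eR a R Cd r0)) z' z'' :=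
  h.lr r0 fuel fuel' g ct o ((below_iff _ _).1 hl) hc z' z'' hz' hz'' he' he''

theorem TabOK.neF (h : TabOK a R C Cd U PT) {x : Row a} {N1 : ℕ} {Ms : List (ℕ → ℕ)}
    {All : ℕ} (hL : Lev RE RD (eR a R Cd) (3 * R) N1 x Ms All)
    (hA' : nechk All R = true)
    (w : Row a) (hw : PrR w) :
    ∃ q : List (Row a), q.length + 1 = Ms.length + 1 ∧ Wk RE x (w :: q) := by
  obtain ⟨n, hn, rfl⟩ := h.surj w hw
  have hA : Nat.land All (Nat.sub (Nat.pow 2 R) 1) = Nat.sub (Nat.pow 2 R) 1 :=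
    (beq_iff _ _).1 hA'
  have h1 : (Nat.sub (Nat.pow 2 R) 1).testBit n = true := by
    have h2 : Nat.sub (Nat.pow 2 R) 1 = 2 ^ R - 1 := rfl
    rw [h2, Nat.testBit_two_pow_sub_one, decide_eq_true_eq]
    exact hn
  rw [← hA, land_bit, Bool.and_eq_true] at h1
  obtain ⟨q, hq, hW⟩ := hL.ne h1.1
  exact ⟨q, by omega, hW⟩

theorem TabOK.goodAll (h : TabOK a R C Cd U PT) {x : Row a} {N1 : ℕ} {Ms : List (ℕ → ℕ)}
    {All : ℕ} (hL : Lev RE RD (eR a R Cd) (3 * R) N1 x Ms All)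
    (hA' : fuchk All R = true) (z : Row a) :
    Good RE RD x z Ms.length := by
  have hA : All = Nat.sub (Nat.pow 2 R) 1 := (beq_iff _ _).1 hA'
  have hbit : ∀ n, All.testBit n = true ↔ n < R := by
    intro n
    have h2 : Nat.sub (Nat.pow 2 R) 1 = 2 ^ R - 1 := rfl
    rw [hA, h2, Nat.testBit_two_pow_sub_one, decide_eq_true_eq]
  exact hL.good (fun n n' hn hn' he => h.inj n ((hbit n).1 hn) n' ((hbit n').1 hn') he) z

end

end Pool.Agent.J4H93.KT
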