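import Pool.Agent.J4H93.KT.Level

/-!
Kernel friendly checks for level structures, and their soundness.
-/

namespace Pool.Agent.J4H93.KT

open Relation

/-- binary trees used as lookup tables (least significant bit first) -/
inductive Tr where
  | nil : Tr
  | leaf : ℕ → Tr
  | node : Tr → Tr → Tr

/-- lookup -/
noncomputable def Tr.get (t : Tr) : ℕ → ℕ :=
  Tr.rec (fun _ => 0) (fun v _ => v)
    (fun _ _ gl gr k => Nat.rec (gl (Nat.shiftRight k 1)) (fun _ _ => gr (Nat.shiftRight k 1))
      (Nat.land k 1)) t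

/-- lookup in a table whose leaves hold sixteen packed entries of `w` bits each -/
noncomputable def get2 (t : Tr) (w k : ℕ) : ℕ :=
  Nat.mod (Nat.shiftRight (t.get (Nat.shiftRight k 4)) (Nat.mul w (Nat.land k 15))) (Nat.pow 2 w)

/-- bit test in a kernel friendly form -/
def tb (m k : ℕ) : Bool := Nat.beq (Nat.land (Nat.shiftRight m k) 1) 1

theorem tb_eq (m k : ℕ) : tb m k = m.testBit k := by
  unfold tb
  have h1 : Nat.land (Nat.shiftRight m k) 1 = (m >>> k) % 2 := Nat.and_one_is_mod _
  rw [h1, Nat.testBit_eq_decide_div_mod_eq, Nat.shiftRight_eq_div_pow]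
  by_cases h : m / 2 ^ k % 2 = 1
  · rw [h]; rfl
  · have h2 : m / 2 ^ k % 2 = 0 := by omega
    rw [h2]; rfl

theorem beq_iff (m n : ℕ) : Nat.beq m n = true ↔ m = n :=
  ⟨Nat.eq_of_beq_eq_true, fun h => by subst h; exact Nat.beq_refl m⟩

theorem cond_false_iff (a b : Bool) : cond a b false = true ↔ a = true ∧ b = true := by
  cases a <;> simp

noncomputable def below (f : ℕ → Bool) (n : ℕ) : Bool :=
  Nat.rec true (fun k ih => cond (f k) ih false) n

theorem below_iff (f : ℕ → Bool) (n : ℕ) : below f n = true ↔ ∀ k < n, f k = true := by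
  induction n with
  | zero => simp [below]
  | succ n ih =>
    have h : below f (n + 1) = cond (f n) (below f n) false := rfl
    rw [h, cond_false_iff, ih]
    constructor
    · rintro ⟨h1, h2⟩ k hk
      rcases Nat.lt_succ_iff_lt_or_eq.1 hk with h3 | h3
      · exact h2 k h3
      · subst h3; exact h1
    · intro h1
      exact ⟨h1 n (Nat.lt_succ_self n), fun k hk => h1 k (Nat.lt_succ_of_lt hk)⟩

/-- cover check: `c` lists (base 4096, shifted by one) vertices whose neighbourhoods are
successively added to the reached set `S` -/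
noncomputable def cov (g : ℕ → ℕ) (B fuel : ℕ) : ℕ → ℕ → Bool :=
  Nat.rec (fun _ _ => false)
    (fun _ ih c S => cond (Nat.beq c 0) (Nat.beq S B)
      (cond (tb S (Nat.sub (Nat.land c 4095) 1))
        (ih (Nat.shiftRight c 12) (Nat.lor S (Nat.land (g (Nat.sub (Nat.land c 4095) 1)) B)))
        false)) fuel

noncomputable def cM (g : ℕ → ℕ) (fuel B c : ℕ) : Bool :=
  cond (Nat.beq B 0) true
    (cond (tb B (Nat.sub (Nat.land c 4095) 1))
      (cov g B fuel c (Nat.shiftLeft 1 (Nat.sub (Nat.land c 4095) 1))) false)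

theorem lor_bit (a b k : ℕ) : (Nat.lor a b).testBit k = (a.testBit k || b.testBit k) :=
  Nat.testBit_or a b k

theorem land_bit (a b k : ℕ) : (Nat.land a b).testBit k = (a.testBit k && b.testBit k) :=
  Nat.testBit_and a b k

theorem xor_bit (a b k : ℕ) : (Nat.xor a b).testBit k = (a.testBit k ^^ b.testBit k) :=
  Nat.testBit_xor a b k

theorem shl_bit (n k : ℕ) : (Nat.shiftLeft 1 n).testBit k = true ↔ k = n := by
  have h : Nat.shiftLeft 1 n = 2 ^ n := by
    change 1 <<< n = 2 ^ n
    rw [Nat.shiftLeft_eq, one_mul]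
  rw [h, Nat.testBit_two_pow]
  simp only [decide_eq_true_eq]
  exact eq_comm

theorem cov_sound (g : ℕ → ℕ) (B fuel : ℕ) : ∀ c S, cov g B fuel c S = true →
    (∀ k, S.testBit k = true → B.testBit k = true) →
    ∀ k, B.testBit k = true → ∃ s, S.testBit s = true ∧
      ReflTransGen (fun u v => (g u).testBit v = true ∧ B.testBit u = true ∧
        B.testBit v = true) s k := by
  induction fuel with
  | zero => intro c S h; exact absurd h (by simp [cov])
  | succ fuel ih =>
    intro c S h hS k hk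
    have h1 : cov g B (fuel + 1) c S = cond (Nat.beq c 0) (Nat.beq S B)
      (cond (tb S (Nat.sub (Nat.land c 4095) 1))
        (cov g B fuel (Nat.shiftRight c 12)
          (Nat.lor S (Nat.land (g (Nat.sub (Nat.land c 4095) 1)) B))) false) := rfl
    rw [h1] at h
    cases hc : Nat.beq c 0 with
    | true =>
      rw [hc] at h
      have h2 : S = B := (beq_iff _ _).1 h
      exact ⟨k, by rw [h2]; exact hk, ReflTransGen.refl⟩
    | false =>
      rw [hc] at h
      simp only [cond_false] at h
      rw [cond_false_iff] at h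
      obtain ⟨h2, h3⟩ := h
      set n := Nat.sub (Nat.land c 4095) 1 with hn
      rw [tb_eq] at h2
      have hS' : ∀ k, (Nat.lor S (Nat.land (g n) B)).testBit k = true → B.testBit k = true := by
        intro k hk
        rw [lor_bit, land_bit] at hk
        simp only [Bool.or_eq_true, Bool.and_eq_true] at hk
        rcases hk with h4 | ⟨_, h4⟩
        · exact hS k h4
        · exact h4
      obtain ⟨s, hs, hR⟩ := ih _ _ h3 hS' k hk
      rw [lor_bit, land_bit] at hs
      simp only [Bool.or_eq_true, Bool.and_eq_true] at hs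
      rcases hs with h4 | ⟨h4, h5⟩
      · exact ⟨s, h4, hR⟩
      · exact ⟨n, h2, ReflTransGen.head ⟨h4, hS n h2, h5⟩ hR⟩

theorem cM_sound (g : ℕ → ℕ) (fuel B c : ℕ) (h : cM g fuel B c = true) :
    ∀ m, B.testBit m = true → ∃ s, B.testBit s = true ∧ ∀ k, B.testBit k = true →
      ReflTransGen (fun u v => (g u).testBit v = true ∧ B.testBit u = true ∧
        B.testBit v = true) s k := by
  intro m hm
  unfold cM at h
  cases hB : Nat.beq B 0 with
  | true =>
    have : B = 0 := (beq_iff _ _).1 hB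
    rw [this] at hm
    simp at hm
  | false =>
    rw [hB] at h
    simp only [cond_false] at h
    rw [cond_false_iff, tb_eq] at h
    set n := Nat.sub (Nat.land c 4095) 1 with hn
    refine ⟨n, h.1, ?_⟩
    intro k hk
    have h2 : ∀ k, (Nat.shiftLeft 1 n).testBit k = true → B.testBit k = true := by
      intro k hk
      rw [shl_bit] at hk
      rw [hk]; exact h.1
    obtain ⟨s, hs, hR⟩ := cov_sound g B fuel c _ h.2 h2 k hk
    rw [shl_bit] at hs
    rw [hs] at hR
    exact hR

/-! ### link checks -/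

noncomputable def chk (dc : ℕ → ℕ → ℕ → Bool) (N1 : ℕ) (Ms : List (ℕ → ℕ)) :
    ℕ → ℕ → ℕ → ℕ → Bool :=
  List.rec (fun t n n' _ => cond (dc t n n') (cond (tb N1 n) (tb N1 n') false) false)
    (fun M _ ih t n n' c => cond (dc t n n')
      (cond (tb (M n) (Nat.land c 4095))
        (cond (tb (M n') (Nat.land (Nat.shiftRight c 12) 4095))
          (ih t (Nat.land c 4095) (Nat.land (Nat.shiftRight c 12) 4095) (Nat.shiftRight c 24))
          false) false) false) Ms

section
variable {V ι : Type*} {E : V → V → Prop} {D : ι → V → V → Prop} {e : ℕ → V} {N N1 : ℕ}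

theorem chk_sound (dc : ℕ → ℕ → ℕ → Bool) (dp : ℕ → ι)
    (hdc : ∀ t n n', dc t n n' = true → D (dp t) (e n) (e n')) (Ms : List (ℕ → ℕ))
    (hMs : ∀ M ∈ Ms, ∀ n < N, ∀ m, (M n).testBit m = true → m < N) :
    ∀ t n n' c, n < N → n' < N → chk dc N1 Ms t n n' c = true →
      ∃ q q', KK e N N1 Ms n q ∧ KK e N N1 Ms n' q' ∧
        List.Forall₂ (D (dp t)) (e n :: q) (e n' :: q') := by
  induction Ms with
  | nil =>
    intro t n n' c hn hn' h
    have h1 : chk dc N1 [] t n n' c =
      cond (dc t n n') (cond (tb N1 n) (tb N1 n') false) false := rfl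
    rw [h1, cond_false_iff, cond_false_iff, tb_eq, tb_eq] at h
    obtain ⟨h2, h3, h4⟩ := h
    exact ⟨[], [], ⟨hn, rfl, h3⟩, ⟨hn', rfl, h4⟩, List.Forall₂.cons (hdc _ _ _ h2)
      List.Forall₂.nil⟩
  | cons M Ms ih =>
    intro t n n' c hn hn' h
    have h1 : chk dc N1 (M :: Ms) t n n' c = cond (dc t n n')
      (cond (tb (M n) (Nat.land c 4095))
        (cond (tb (M n') (Nat.land (Nat.shiftRight c 12) 4095))
          (chk dc N1 Ms t (Nat.land c 4095) (Nat.land (Nat.shiftRight c 12) 4095)
            (Nat.shiftRight c 24)) false) false) false := rfl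
    rw [h1, cond_false_iff, cond_false_iff, cond_false_iff, tb_eq, tb_eq] at h
    obtain ⟨h2, h3, h4, h5⟩ := h
    have hm := hMs M (List.mem_cons_self ..) n hn _ h3
    have hm' := hMs M (List.mem_cons_self ..) n' hn' _ h4
    obtain ⟨q, q', hq, hq', hF⟩ := ih (fun M' hM' => hMs M' (List.mem_cons_of_mem _ hM'))
      t _ _ _ hm hm' h5
    exact ⟨_, _, ⟨hn, _, q, h3, rfl, hq⟩, ⟨hn', _, q', h4, rfl, hq'⟩,
      List.Forall₂.cons (hdc _ _ _ h2) hF⟩

end

/-- goes through the packed list `c` of link certificates (each `w` bits) -/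
noncomputable def lgo (ch : ℕ → ℕ → ℕ → Bool) (w gn fuel : ℕ) : ℕ → ℕ → Bool :=
  Nat.rec (fun _ _ => false)
    (fun _ ih c acc => cond (Nat.beq c 0) (Nat.beq acc gn)
      (cond (ch (Nat.land c 4095) (Nat.land (Nat.shiftRight c 12) 4095) (Nat.shiftRight c 24))
        (ih (Nat.shiftRight c w)
          (Nat.lor acc (Nat.shiftLeft 1 (Nat.land (Nat.shiftRight c 12) 4095)))) false)) fuel

theorem lgo_sound (ch : ℕ → ℕ → ℕ → Bool) (w gn fuel : ℕ) : ∀ c acc,
    lgo ch w gn fuel c acc = true → ∀ k, gn.testBit k = true → acc.testBit k = true ∨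
      ∃ t rest, ch t k rest = true := by
  induction fuel with
  | zero => intro c acc h; exact absurd h (by simp [lgo])
  | succ fuel ih =>
    intro c acc h k hk
    have h1 : lgo ch w gn (fuel + 1) c acc = cond (Nat.beq c 0) (Nat.beq acc gn)
      (cond (ch (Nat.land c 4095) (Nat.land (Nat.shiftRight c 12) 4095) (Nat.shiftRight c 24))
        (lgo ch w gn fuel (Nat.shiftRight c w)
          (Nat.lor acc (Nat.shiftLeft 1 (Nat.land (Nat.shiftRight c 12) 4095)))) false) := rfl
    rw [h1] at h
    cases hc : Nat.beq c 0 with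
    | true =>
      rw [hc] at h
      have h2 : acc = gn := (beq_iff _ _).1 h
      left; rw [h2]; exact hk
    | false =>
      rw [hc] at h
      simp only [cond_false] at h
      rw [cond_false_iff] at h
      obtain ⟨h2, h3⟩ := h
      rcases ih _ _ h3 k hk with h4 | h4
      · rw [lor_bit, Bool.or_eq_true, shl_bit] at h4
        rcases h4 with h5 | h5
        · exact Or.inl h5
        · right
          rw [h5]
          exact ⟨_, _, h2⟩
      · exact Or.inr h4

/-- check of all links at the nodes below `N` -/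
noncomputable def lnkchk (dc : ℕ → ℕ → ℕ → Bool) (N1 : ℕ) (Ms : List (ℕ → ℕ)) (w fuel : ℕ)
    (g ct : ℕ → ℕ) (n : ℕ) : Bool :=
  lgo (fun t n' c => chk dc N1 Ms t n n' c) w (g n) fuel (ct n) 0

noncomputable def nodechk (g M ord : ℕ → ℕ) (fuel All' n : ℕ) : Bool :=
  cond (Nat.beq (M n) 0) (not (tb All' n)) (cond (tb All' n) (cM g fuel (M n) (ord n)) false)

noncomputable def levchk (R fuel : ℕ) (pr : ℕ → ℕ) (All All' : ℕ) (g M ord : ℕ → ℕ) (r : ℕ) :
    Bool :=
  cond (Nat.beq (Nat.lor (M r) (Nat.lor (M (Nat.add R r)) (M (Nat.add (Nat.mul 2 R) r))))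
      (Nat.land All (pr r)))
    (cond (nodechk g M ord fuel All' r)
      (cond (nodechk g M ord fuel All' (Nat.add R r))
        (nodechk g M ord fuel All' (Nat.add (Nat.mul 2 R) r)) false) false) false

noncomputable def finchk (fuel : ℕ) (pr : ℕ → ℕ) (All : ℕ) (g ord : ℕ → ℕ) (r : ℕ) : Bool :=
  cond (Nat.beq (Nat.land All (pr r)) 0) false (cM g fuel (Nat.land All (pr r)) (ord r))

section
variable {V ι : Type*} {E : V → V → Prop} {D : ι → V → V → Prop} {e : ℕ → V} {N1 R : ℕ}

theorem nodechk_sound {g M ord : ℕ → ℕ} {fuel All' n : ℕ}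
    (h : nodechk g M ord fuel All' n = true) :
    (All'.testBit n = true ↔ ∃ m, (M n).testBit m = true) ∧
    ∀ m, (M n).testBit m = true → ∃ s, (M n).testBit s = true ∧ ∀ k, (M n).testBit k = true →
      ReflTransGen (fun u v => (g u).testBit v = true ∧ (M n).testBit u = true ∧
        (M n).testBit v = true) s k := by
  unfold nodechk at h
  cases hM : Nat.beq (M n) 0 with
  | true =>
    rw [hM] at h
    have h0 : M n = 0 := (beq_iff _ _).1 hM
    simp only [cond_true] at h
    rw [tb_eq] at h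
    refine ⟨⟨fun h1 => ?_, ?_⟩, ?_⟩
    · rw [h1] at h; simp at h
    · rintro ⟨m, hm⟩
      rw [h0] at hm; simp at hm
    · intro m hm
      rw [h0] at hm; simp at hm
  | false =>
    rw [hM] at h
    simp only [cond_false] at h
    rw [cond_false_iff, tb_eq] at h
    have h0 : M n ≠ 0 := by
      intro h1
      rw [h1] at hM
      simp at hM
    refine ⟨⟨fun _ => ?_, fun _ => h.1⟩, cM_sound _ _ _ _ h.2⟩
    by_contra h1
    push Not at h1
    apply h0
    apply Nat.eq_of_testBit_eq
    intro i
    rw [Nat.zero_testBit]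
    exact Bool.eq_false_iff.2 (h1 i)

theorem lev_of_chk (hD : ∀ d v, D d v v) (hDs : ∀ d u v, D d u v → D d v u) {x : V}
    {Ms : List (ℕ → ℕ)} {All All' : ℕ} (hL : Lev E D e (3 * R) N1 x Ms All)
    (dc : ℕ → ℕ → ℕ → Bool) (dp : ℕ → ι)
    (hdc : ∀ t n n', dc t n n' = true → D (dp t) (e n) (e n'))
    (hMs : ∀ M ∈ Ms, ∀ n < 3 * R, ∀ m, (M n).testBit m = true → m < 3 * R)
    (pr : ℕ → ℕ) (hpr : ∀ r < R, ∀ n < 3 * R, ((pr r).testBit n = true ↔ E (e n) (e r)))
    (he : ∀ r, e (R + r) = e r) (hsurj : ∀ u y, E u y → ∃ r < R, e r = y)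
    (hAll' : All' < 2 ^ (3 * R)) (w fuel fuel' : ℕ) (g ct M ord : ℕ → ℕ)
    (hl : ∀ n < 3 * R, lnkchk dc N1 Ms w fuel' g ct n = true)
    (hc : ∀ r < R, levchk R fuel pr All All' g M ord r = true) :
    Lev E D e (3 * R) N1 x (M :: Ms) All' ∧
      (∀ n < 3 * R, ∀ m, (M n).testBit m = true → m < 3 * R) := by
  have he2 : ∀ r, e (2 * R + r) = e r := by
    intro r
    have : 2 * R + r = R + (R + r) := by ring
    rw [this, he, he]
  have hAll : ∀ n, All.testBit n = true → n < 3 * R := by
    intro n hn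
    obtain ⟨q, hq⟩ := (hL.all n).1 hn
    exact KK_lt hq
  -- decompose the checks
  have hC : ∀ r < R,
      (Nat.lor (M r) (Nat.lor (M (R + r)) (M (2 * R + r))) = Nat.land All (pr r)) ∧
      nodechk g M ord fuel All' r = true ∧ nodechk g M ord fuel All' (R + r) = true ∧
      nodechk g M ord fuel All' (2 * R + r) = true := by
    intro r hr
    have h := hc r hr
    unfold levchk at h
    rw [cond_false_iff, cond_false_iff, cond_false_iff, beq_iff] at h
    exact h
  have hdec : ∀ n < 3 * R, ∃ r < R, n = r ∨ n = R + r ∨ n = 2 * R + r := by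
    intro n hn
    rcases lt_or_ge n R with h1 | h1
    · exact ⟨n, h1, Or.inl rfl⟩
    · rcases lt_or_ge n (2 * R) with h2 | h2
      · exact ⟨n - R, by omega, Or.inr (Or.inl (by omega))⟩
      · exact ⟨n - 2 * R, by omega, Or.inr (Or.inr (by omega))⟩
  have hnode : ∀ n < 3 * R, nodechk g M ord fuel All' n = true := by
    intro n hn
    obtain ⟨r, hr, h | h | h⟩ := hdec n hn
    · rw [h]; exact (hC r hr).2.1
    · rw [h]; exact (hC r hr).2.2.1
    · rw [h]; exact (hC r hr).2.2.2
  have hsub : ∀ n < 3 * R, ∀ m, (M n).testBit m = true →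
      All.testBit m = true ∧ E (e m) (e n) := by
    intro n hn m hm
    obtain ⟨r, hr, h⟩ := hdec n hn
    have h1 : (Nat.lor (M r) (Nat.lor (M (R + r)) (M (2 * R + r)))).testBit m = true := by
      rw [lor_bit, lor_bit]
      simp only [Bool.or_eq_true]
      rcases h with h | h | h
      · rw [← h]; exact Or.inl hm
      · rw [← h]; exact Or.inr (Or.inl hm)
      · rw [← h]; exact Or.inr (Or.inr hm)
    have h2 : e n = e r := by
      rcases h with h | h | h
      · rw [h]
      · rw [h, he]
      · rw [h, he2]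
    rw [(hC r hr).1, land_bit, Bool.and_eq_true] at h1
    exact ⟨h1.1, by rw [h2]; exact (hpr r hr m (hAll m h1.1)).1 h1.2⟩
  have hlink : ∀ n < 3 * R, ∀ n' < 3 * R, (g n).testBit n' = true →
      Lnk D e (3 * R) N1 Ms n n' := by
    intro n hn n' hn' hb
    have h := hl n hn
    unfold lnkchk at h
    rcases lgo_sound _ _ _ _ _ _ h n' hb with h1 | ⟨t, rest, h1⟩
    · simp at h1
    · obtain ⟨q, q', hq, hq', hF⟩ := chk_sound dc dp hdc Ms hMs t n n' rest hn hn' h1
      exact ⟨q, q', hq, hq', dp t, hF⟩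
  refine ⟨lev_step hD hDs hL M hsub ?_ ?_ ?_, ?_⟩
  · intro n hn m hm
    obtain ⟨s, hs, h⟩ := (nodechk_sound (hnode n hn)).2 m hm
    refine ⟨s, hs, fun k hk => ?_⟩
    refine ReflTransGen.mono (fun u v huv => ?_) _ _ (h k hk)
    exact ⟨hlink u (hAll u (hsub n hn u huv.2.1).1) v (hAll v (hsub n hn v huv.2.2).1) huv.1,
      huv.2.1, huv.2.2⟩
  · intro m hm y hy
    obtain ⟨r, hr, hry⟩ := hsurj _ _ hy
    rw [← hry] at hy
    have h1 : (Nat.land All (pr r)).testBit m = true := by
      rw [land_bit, Bool.and_eq_true]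
      exact ⟨hm, (hpr r hr m (hAll m hm)).2 hy⟩
    rw [← (hC r hr).1, lor_bit, lor_bit] at h1
    simp only [Bool.or_eq_true] at h1
    rcases h1 with h1 | h1 | h1
    · exact ⟨r, by omega, hry, h1⟩
    · exact ⟨R + r, by omega, by rw [he]; exact hry, h1⟩
    · exact ⟨2 * R + r, by omega, by rw [he2]; exact hry, h1⟩
  · intro n
    constructor
    · intro hn
      have hlt : n < 3 * R := by
        by_contra hge
        have h1 : All'.testBit n = false := by
          apply Nat.testBit_lt_two_pow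
          exact lt_of_lt_of_le hAll' (Nat.pow_le_pow_right (by norm_num) (by omega))
        rw [h1] at hn
        simp at hn
      exact ⟨hlt, (nodechk_sound (hnode n hlt)).1.1 hn⟩
    · rintro ⟨hlt, hm⟩
      exact (nodechk_sound (hnode n hlt)).1.2 hm
  · intro n hn m hm
    exact hAll m (hsub n hn m hm).1

theorem fin_of_chk (hD : ∀ d v, D d v v) (hDs : ∀ d u v, D d u v → D d v u) {x : V}
    {Ms : List (ℕ → ℕ)} {All : ℕ} (hL : Lev E D e (3 * R) N1 x Ms All)
    (dc : ℕ → ℕ → ℕ → Bool) (dp : ℕ → ι)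
    (hdc : ∀ t n n', dc t n n' = true → D (dp t) (e n) (e n'))
    (hMs : ∀ M ∈ Ms, ∀ n < 3 * R, ∀ m, (M n).testBit m = true → m < 3 * R)
    (pr : ℕ → ℕ) (hpr : ∀ r < R, ∀ n < 3 * R, ((pr r).testBit n = true ↔ E (e n) (e r)))
    (hinj : ∀ r < R, ∀ r' < R, e r = e r' → r = r')
    (hsurj : ∀ u y, E u y → ∃ r < R, e r = y)
    (w fuel fuel' : ℕ) (g ct ord : ℕ → ℕ)
    (hl : ∀ n < 3 * R, lnkchk dc N1 Ms w fuel' g ct n = true)
    (hc : ∀ r < R, finchk fuel pr All g ord r = true) (z : V) :
    Good E D x z (Ms.length + 1) := by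
  have hAll : ∀ n, All.testBit n = true → n < 3 * R := by
    intro n hn
    obtain ⟨q, hq⟩ := (hL.all n).1 hn
    exact KK_lt hq
  let M : ℕ → ℕ := fun n => if n < R then Nat.land All (pr n) else 0
  have hMlt : ∀ n m, (M n).testBit m = true → n < R ∧ All.testBit m = true ∧
      (pr n).testBit m = true := by
    intro n m hm
    by_cases hn : n < R
    · simp only [M, hn, if_true] at hm
      rw [land_bit, Bool.and_eq_true] at hm
      exact ⟨hn, hm⟩
    · simp only [M, hn, if_false] at hm
      simp at hm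
  have hlink : ∀ n < 3 * R, ∀ n' < 3 * R, (g n).testBit n' = true →
      Lnk D e (3 * R) N1 Ms n n' := by
    intro n hn n' hn' hb
    have h := hl n hn
    unfold lnkchk at h
    rcases lgo_sound _ _ _ _ _ _ h n' hb with h1 | ⟨t, rest, h1⟩
    · simp at h1
    · obtain ⟨q, q', hq, hq', hF⟩ := chk_sound dc dp hdc Ms hMs t n n' rest hn hn' h1
      exact ⟨q, q', hq, hq', dp t, hF⟩
  have hcc : ∀ r < R, Nat.land All (pr r) ≠ 0 ∧
      cM g fuel (Nat.land All (pr r)) (ord r) = true := by
    intro r hr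
    have h := hc r hr
    unfold finchk at h
    cases hB : Nat.beq (Nat.land All (pr r)) 0 with
    | true => rw [hB] at h; simp at h
    | false =>
      rw [hB] at h
      refine ⟨?_, h⟩
      intro h1
      rw [h1] at hB
      simp at hB
  have hLev : Lev E D e (3 * R) N1 x (M :: Ms) (2 ^ R - 1) := by
    apply lev_step hD hDs hL M
    · intro n _ m hm
      obtain ⟨h1, h2, h3⟩ := hMlt n m hm
      exact ⟨h2, (hpr n h1 m (hAll m h2)).1 h3⟩
    · intro n hn m hm
      have h1 := (hMlt n m hm).1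
      have hMn : M n = Nat.land All (pr n) := by simp only [M, h1, if_true]
      rw [hMn] at hm ⊢
      obtain ⟨s, hs, h⟩ := cM_sound _ _ _ _ (hcc n h1).2 m hm
      refine ⟨s, hs, fun k hk => ?_⟩
      refine ReflTransGen.mono (fun u v huv => ?_) _ _ (h k hk)
      have hu := huv.2.1
      have hv := huv.2.2
      rw [land_bit, Bool.and_eq_true] at hu hv
      exact ⟨hlink u (hAll u hu.1) v (hAll v hv.1) huv.1, huv.2.1, huv.2.2⟩
    · intro m hm y hy
      obtain ⟨r, hr, hry⟩ := hsurj _ _ hy
      refine ⟨r, by omega, hry, ?_⟩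
      simp only [M, hr, if_true]
      rw [land_bit, Bool.and_eq_true]
      rw [← hry] at hy
      exact ⟨hm, (hpr r hr m (hAll m hm)).2 hy⟩
    · intro n
      rw [Nat.testBit_two_pow_sub_one, decide_eq_true_eq]
      constructor
      · intro hn
        refine ⟨by omega, ?_⟩
        by_contra h1
        push Not at h1
        apply (hcc n hn).1
        apply Nat.eq_of_testBit_eq
        intro i
        rw [Nat.zero_testBit]
        have := h1 i
        simp only [M, hn, if_true] at this
        exact Bool.eq_false_iff.2 this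
      · rintro ⟨_, m, hm⟩
        exact (hMlt n m hm).1
  have := hLev.good (fun n n' hn hn' h => by
    rw [Nat.testBit_two_pow_sub_one, decide_eq_true_eq] at hn hn'
    exact hinj n hn n' hn' h) z
  simpa using this

end

end Pool.Agent.J4H93.KT
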