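import Mathlib

/-!
# Definitions for Kempe equivalence of colourings of triangulated toroidal grids
-/

namespace Pool.Agent.J4H93.KT

/-- The triangulated toroidal grid on `ZMod a × ZMod b`: two distinct vertices are adjacent iff
their difference is one of `±(1,0)`, `±(0,1)`, `±(1,1)`. -/
def torusGrid (a b : ℕ) : SimpleGraph (ZMod a × ZMod b) :=
  SimpleGraph.fromRel (fun u v => v - u = (1, 0) ∨ v - u = (0, 1) ∨ v - u = (1, 1))

/-- `ψ` arises from `φ` by one Kempe swap: there are distinct colours `α`, `β` and a connected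
component `C` of the subgraph induced by the vertices coloured `α` or `β` by `φ`, such that `ψ`
interchanges `α` and `β` on `C` and agrees with `φ` elsewhere. -/
def KempeSwap {V : Type*} {G : SimpleGraph V} {k : ℕ} (φ ψ : G.Coloring (Fin k)) : Prop :=
  ∃ α β : Fin k, α ≠ β ∧
    ∃ C : (G.induce {v | φ v = α ∨ φ v = β}).ConnectedComponent,
      (∀ v ∈ Subtype.val '' C.supp, ψ v = Equiv.swap α β (φ v)) ∧
      (∀ v ∉ Subtype.val '' C.supp, ψ v = φ v)

/-- Kempe equivalence: reachability by finitely many Kempe swaps. -/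
def KempeEquivalent {V : Type*} {G : SimpleGraph V} {k : ℕ} (φ ψ : G.Coloring (Fin k)) : Prop :=
  Relation.ReflTransGen KempeSwap φ ψ

end Pool.Agent.J4H93.KT
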