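import Pool.Agent.J4H93.KT.Y3a

namespace Pool.Agent.J4H93.KT

open Relation

theorem sym3 : below (fun r => symchk 3 60 D3 [0] r) 60 = true := by
  decide +kernel

theorem facts3 (x : Row 3) (hx : PrR x) : Facts RE RD PrR 3 x := by
  have h : ∀ r0 ∈ ([0] : List ℕ), Facts RE RD PrR 3 (eR 3 60 D3 r0) := by
    intro r0 hr0
    simp only [List.mem_cons, List.not_mem_nil, or_false] at hr0
    subst hr0
    exact X3a.facts
  exact tab3.facts [0] ((below_iff _ _).1 sym3) h x hx

theorem factsB3 (x : Row 3) (hx : PrR x) : Facts' RE RD PrR 3 x := by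
  have h : ∀ r0 ∈ ([0] : List ℕ), Facts' RE RD PrR 3 (eR 3 60 D3 r0) := by
    intro r0 hr0
    simp only [List.mem_cons, List.not_mem_nil, or_false] at hr0
    subst hr0
    exact X3a.facts1
  exact tab3.facts' [0] ((below_iff _ _).1 sym3) h x hx

theorem width3 (b : ℕ) (hb : 3 ≤ b) (c c' : ZMod b → Row 3) (hc : Cl RE c) (hc' : Cl RE c') :
    ReflTransGen (CS RE RD) c c' := by
  rcases Nat.eq_or_lt_of_le hb with h | h
  · subst h
    exact closed_of_facts' RD_refl PrR RE_Pr facts3 3 (by norm_num) factsB3 c c' hc hc'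
  · exact closed_of_facts RD_refl PrR RE_Pr (by norm_num) facts3 b (by omega) c c' hc hc'

end Pool.Agent.J4H93.KT
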