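import Pool.Agent.J4H93.KT.X4b
import Pool.Agent.J4H93.KT.Asm

namespace Pool.Agent.J4H93.KT.X4b

theorem k0 :
    k0chk 4 260 D4 P4 1 N1 = true := by
  decide +kernel

theorem l1 :
    below (fun n => lnkchk (dcf 4 260 C4 33825) N1 [] 24 200
      (get2 g1 260) (get2 c1 117) n) (3 * 260) = true := by
  decide +kernel

theorem l2 :
    below (fun n => lnkchk (dcf 4 260 C4 33825) N1 [get2 M2 260] 48 200
      (get2 g2 499) (get2 c2 1004) n) (3 * 260) = true := by
  decide +kernel

theorem l3 :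
    below (fun n => lnkchk (dcf 4 260 C4 33825) N1 [get2 M3 499, get2 M2 260] 72 200
      (get2 g3 735) (get2 c3 1652) n) (3 * 260) = true := by
  decide +kernel

theorem l4 :
    below (fun n => lnkchk (dcf 4 260 C4 33825) N1 [get2 M4 735, get2 M3 499, get2 M2 260] 96 200
      (get2 g4 260) (get2 c4 1820) n) (3 * 260) = true := by
  decide +kernel

theorem b2 :
    bchk A2 260 = true := by
  decide +kernel

theorem v2 :
    below (fun r => levchk 260 200 (prf 4 260 D4 P4) N1 A2
      (get2 g1 260) (get2 M2 260) (get2 o2 92) r) 260 = true := by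
  decide +kernel

theorem b3 :
    bchk A3 260 = true := by
  decide +kernel

theorem v3 :
    below (fun r => levchk 260 200 (prf 4 260 D4 P4) A2 A3
      (get2 g2 499) (get2 M3 499) (get2 o3 140) r) 260 = true := by
  decide +kernel

theorem b4 :
    bchk A4 260 = true := by
  decide +kernel

theorem v4 :
    below (fun r => levchk 260 200 (prf 4 260 D4 P4) A3 A4
      (get2 g3 735) (get2 M4 735) (get2 o4 126) r) 260 = true := by
  decide +kernel

theorem f5 :
    below (fun r => finchk 200 (prf 4 260 D4 P4) A4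
      (get2 g4 260) (get2 o5 116) r) 260 = true := by
  decide +kernel

theorem ne :
    nechk A4 260 = true := by
  decide +kernel

theorem rl :
    below (fun n => g2chk (dcf 4 260 C4 33825) (prf 4 260 D4 P4) (3 * 260) 200
      (get2 gl 260) (get2 cl 174) n) 260 = true := by
  decide +kernel

theorem rc :
    rcchk 4 260 D4 P4 (get2 gl 260) 200 1 ol = true := by
  decide +kernel

theorem L1 : Lev RE RD (eR 4 260 D4) (3 * 260) N1 (eR 4 260 D4 1) [] N1 :=
  tab4.base 1 N1 k0

theorem L2 : Lev RE RD (eR 4 260 D4) (3 * 260) N1 (eR 4 260 D4 1) [get2 M2 260] A2 ∧ Bd 260 [get2 M2 260] :=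
  tab4.next L1 (Bd_nil _) 24 200 200 _ _ _ _ b2 l1 v2

theorem L3 : Lev RE RD (eR 4 260 D4) (3 * 260) N1 (eR 4 260 D4 1) [get2 M3 499, get2 M2 260] A3 ∧ Bd 260 [get2 M3 499, get2 M2 260] :=
  tab4.next L2.1 L2.2 48 200 200 _ _ _ _ b3 l2 v3

theorem L4 : Lev RE RD (eR 4 260 D4) (3 * 260) N1 (eR 4 260 D4 1) [get2 M4 735, get2 M3 499, get2 M2 260] A4 ∧ Bd 260 [get2 M4 735, get2 M3 499, get2 M2 260] :=
  tab4.next L3.1 L3.2 72 200 200 _ _ _ _ b4 l3 v4

theorem gd (z : Row 4) : Good RE RD (eR 4 260 D4 1) z 4 :=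
  tab4.fin L4.1 L4.2 96 200 200 _ _ _ l4 f5 z

theorem facts : Facts RE RD PrR 4 (eR 4 260 D4 1) where
  good := fun z _ => gd z
  ne := fun w hw => tab4.neF L4.1 ne w hw
  lr := fun z1 z2 h1 h2 h3 h4 => tab4.lrF 1 200 200 _ _ ol rl rc z1 z2 h1 h2 h3 h4

theorem fu :
    fuchk A4 260 = true := by
  decide +kernel

theorem cy :
    below (fun n => cyc4 4 260 D4 P4 1 n) 260 = true := by
  decide +kernel

theorem facts1 : Facts' RE RD PrR 4 (eR 4 260 D4 1) where
  good := tab4.goodAll L4.1 fu _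
  cyc := fun y hy => tab4.cyc4_sound ((below_iff _ _).1 cy) y hy

end Pool.Agent.J4H93.KT.X4b
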