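import Pool.Agent.J4H93.KT.Y4a
import Pool.Agent.J4H93.KT.Y4b
import Pool.Agent.J4H93.KT.Y4c

namespace Pool.Agent.J4H93.KT

open Relation

theorem sym4 : below (fun r => symchk 4 260 D4 [0, 1, 5] r) 260 = true := by
  decide +kernel

theorem facts4 (x : Row 4) (hx : PrR x) : Facts RE RD PrR 4 x := by
  have h : ∀ r0 ∈ ([0, 1, 5] : List ℕ), Facts RE RD PrR 4 (eR 4 260 D4 r0) := by
    intro r0 hr0
    simp only [List.mem_cons, List.not_mem_nil, or_false] at hr0
    rcases hr0 with rfl | rfl | rfl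
    · exact X4a.facts
    · exact X4b.facts
    · exact X4c.facts
  exact tab4.facts [0, 1, 5] ((below_iff _ _).1 sym4) h x hx

theorem factsB4 (x : Row 4) (hx : PrR x) : Facts' RE RD PrR 4 x := by
  have h : ∀ r0 ∈ ([0, 1, 5] : List ℕ), Facts' RE RD PrR 4 (eR 4 260 D4 r0) := by
    intro r0 hr0
    simp only [List.mem_cons, List.not_mem_nil, or_false] at hr0
    rcases hr0 with rfl | rfl | rfl
    · exact X4a.facts1
    · exact X4b.facts1
    · exact X4c.facts1
  exact tab4.facts' [0, 1, 5] ((below_iff _ _).1 sym4) h x hx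

theorem width4 (b : ℕ) (hb : 4 ≤ b) (c c' : ZMod b → Row 4) (hc : Cl RE c) (hc' : Cl RE c') :
    ReflTransGen (CS RE RD) c c' := by
  rcases Nat.eq_or_lt_of_le hb with h | h
  · subst h
    exact closed_of_facts' RD_refl PrR RE_Pr facts4 4 (by norm_num) factsB4 c c' hc hc'
  · exact closed_of_facts RD_refl PrR RE_Pr (by norm_num) facts4 b (by omega) c c' hc hc'

end Pool.Agent.J4H93.KT
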