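import Pool.Agent.J4H93.KT.X5c
import Pool.Agent.J4H93.KT.Asm

namespace Pool.Agent.J4H93.KT.X5c

theorem k0 :
    k0chk 5 1020 D5 P5 21 N1 = true := by
  decide +kernel

theorem l1 :
    below (fun n => lnkchk (dcf 5 1020 C5 1082401) N1 [] 24 200
      (get2 g1 816) (get2 c1 166) n) (3 * 1020) = true := by
  decide +kernel

theorem l2 :
    below (fun n => lnkchk (dcf 5 1020 C5 1082401) N1 [get2 M2 816] 48 200
      (get2 g2 1787) (get2 c2 956) n) (3 * 1020) = true := by
  decide +kernel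

theorem l3 :
    below (fun n => lnkchk (dcf 5 1020 C5 1082401) N1 [get2 M3 1787, get2 M2 816] 72 200
      (get2 g3 2988) (get2 c3 1006) n) (3 * 1020) = true := by
  decide +kernel

theorem b2 :
    bchk A2 1020 = true := by
  decide +kernel

theorem v2 :
    below (fun r => levchk 1020 200 (prf 5 1020 D5 P5) N1 A2
      (get2 g1 816) (get2 M2 816) (get2 o2 225) r) 1020 = true := by
  decide +kernel

theorem b3 :
    bchk A3 1020 = true := by
  decide +kernel

theorem v3 :
    below (fun r => levchk 1020 200 (prf 5 1020 D5 P5) A2 A3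
      (get2 g2 1787) (get2 M3 1787) (get2 o3 334) r) 1020 = true := by
  decide +kernel

theorem f4 :
    below (fun r => finchk 200 (prf 5 1020 D5 P5) A3
      (get2 g3 2988) (get2 o4 538) r) 1020 = true := by
  decide +kernel

theorem ne :
    nechk A3 1020 = true := by
  decide +kernel

theorem rl :
    below (fun n => g2chk (dcf 5 1020 C5 1082401) (prf 5 1020 D5 P5) (3 * 1020) 200
      (get2 gl 1017) (get2 cl 249) n) 1020 = true := by
  decide +kernel

theorem rc :
    rcchk 5 1020 D5 P5 (get2 gl 1017) 200 21 ol = true := by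
  decide +kernel

theorem L1 : Lev RE RD (eR 5 1020 D5) (3 * 1020) N1 (eR 5 1020 D5 21) [] N1 :=
  tab5.base 21 N1 k0

theorem L2 : Lev RE RD (eR 5 1020 D5) (3 * 1020) N1 (eR 5 1020 D5 21) [get2 M2 816] A2 ∧ Bd 1020 [get2 M2 816] :=
  tab5.next L1 (Bd_nil _) 24 200 200 _ _ _ _ b2 l1 v2

theorem L3 : Lev RE RD (eR 5 1020 D5) (3 * 1020) N1 (eR 5 1020 D5 21) [get2 M3 1787, get2 M2 816] A3 ∧ Bd 1020 [get2 M3 1787, get2 M2 816] :=
  tab5.next L2.1 L2.2 48 200 200 _ _ _ _ b3 l2 v3

theorem gd (z : Row 5) : Good RE RD (eR 5 1020 D5 21) z 3 :=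
  tab5.fin L3.1 L3.2 72 200 200 _ _ _ l3 f4 z

theorem facts : Facts RE RD PrR 3 (eR 5 1020 D5 21) where
  good := fun z _ => gd z
  ne := fun w hw => tab5.neF L3.1 ne w hw
  lr := fun z1 z2 h1 h2 h3 h4 => tab5.lrF 21 200 200 _ _ ol rl rc z1 z2 h1 h2 h3 h4

end Pool.Agent.J4H93.KT.X5c
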