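import Pool.Agent.J4H93.KT.Y5a
import Pool.Agent.J4H93.KT.Y5b
import Pool.Agent.J4H93.KT.Y5c

namespace Pool.Agent.J4H93.KT

open Relation

theorem sym5 : below (fun r => symchk 5 1020 D5 [0, 4, 21] r) 1020 = true := by
  decide +kernel

theorem facts5 (x : Row 5) (hx : PrR x) : Facts RE RD PrR 3 x := by
  have h : ∀ r0 ∈ ([0, 4, 21] : List ℕ), Facts RE RD PrR 3 (eR 5 1020 D5 r0) := by
    intro r0 hr0
    simp only [List.mem_cons, List.not_mem_nil, or_false] at hr0
    rcases hr0 with rfl | rfl | rfl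
    · exact X5a.facts
    · exact X5b.facts
    · exact X5c.facts
  exact tab5.facts [0, 4, 21] ((below_iff _ _).1 sym5) h x hx

theorem width5 (b : ℕ) (hb : 4 ≤ b) (c c' : ZMod b → Row 5) (hc : Cl RE c) (hc' : Cl RE c') :
    ReflTransGen (CS RE RD) c c' := by
  exact closed_of_facts RD_refl PrR RE_Pr (by norm_num) facts5 b (by omega) c c' hc hc'

end Pool.Agent.J4H93.KT
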