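import Pool.Agent.J4H93.KT.Walk

/-!
Level structures: finitely many nodes describing the connected classes of the walks of a given
length starting at `x`.
-/

namespace Pool.Agent.J4H93.KT

open Relation

section Level

variable {V ι : Type*} (E : V → V → Prop) (D : ι → V → V → Prop) (e : ℕ → V) (N N1 : ℕ)

/-- the walks belonging to the node `n` -/
def KK : List (ℕ → ℕ) → ℕ → List V → Prop
  | [], n, q => n < N ∧ q = [] ∧ N1.testBit n = true
  | M :: Ms, n, q => n < N ∧ ∃ m q0, (M n).testBit m = true ∧ q = e m :: q0 ∧ KK Ms m q0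

/-- the level structure is sound and complete -/
structure Lev (x : V) (Ms : List (ℕ → ℕ)) (All : ℕ) : Prop where
  valid : ∀ n q, KK e N N1 Ms n q → q.length = Ms.length ∧ Wk E x (e n :: q)
  conn : ∀ n q q', KK e N N1 Ms n q → KK e N N1 Ms n q' → ReflTransGen (St E D x (e n)) q q'
  compl : ∀ y q, q.length = Ms.length → Wk E x (y :: q) → ∃ n, e n = y ∧ KK e N N1 Ms n q
  all : ∀ n, All.testBit n = true ↔ ∃ q, KK e N N1 Ms n q

/-- two nodes contain walks that differ by one move -/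
def Lnk (Ms : List (ℕ → ℕ)) (n n' : ℕ) : Prop :=
  ∃ q q', KK e N N1 Ms n q ∧ KK e N N1 Ms n' q' ∧ Mv D (e n :: q) (e n' :: q')

variable {E D e N N1}

theorem forall₂_symm' {d : ι} (hDs : ∀ d u v, D d u v → D d v u) {p q : List V}
    (h : List.Forall₂ (D d) p q) : List.Forall₂ (D d) q p := by
  induction h with
  | nil => exact List.Forall₂.nil
  | cons h1 _ ih => exact List.Forall₂.cons (hDs _ _ _ h1) ih

theorem Lnk.symm (hDs : ∀ d u v, D d u v → D d v u) {Ms : List (ℕ → ℕ)} {n n' : ℕ}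
    (h : Lnk D e N N1 Ms n n') : Lnk D e N N1 Ms n' n := by
  obtain ⟨q, q', h1, h2, d, h3⟩ := h
  exact ⟨q', q, h2, h1, d, forall₂_symm' hDs h3⟩

theorem KK_lt {Ms : List (ℕ → ℕ)} {n : ℕ} {q : List V} (h : KK e N N1 Ms n q) : n < N := by
  cases Ms with
  | nil => exact h.1
  | cons M Ms => exact h.1

theorem lev_base (x : V) (h1 : ∀ n, N1.testBit n = true → n < N ∧ E x (e n))
    (h2 : ∀ y, E x y → ∃ n, e n = y ∧ N1.testBit n = true) : Lev E D e N N1 x [] N1 := by
  refine ⟨?_, ?_, ?_, ?_⟩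
  · rintro n q ⟨_, h, h3⟩
    subst h
    exact ⟨rfl, (h1 n h3).2, trivial⟩
  · rintro n q q' ⟨_, h, _⟩ ⟨_, h', _⟩
    subst h; subst h'
    exact ReflTransGen.refl
  · intro y q hq hW
    have : q = [] := List.length_eq_zero_iff.1 hq
    subst this
    obtain ⟨n, hn, hb⟩ := h2 y hW.1
    exact ⟨n, hn, (h1 n hb).1, rfl, hb⟩
  · intro n
    constructor
    · intro h; exact ⟨[], (h1 n h).1, rfl, h⟩
    · rintro ⟨q, _, _, h⟩; exact h

theorem lev_step (hD : ∀ d v, D d v v) (hDs : ∀ d u v, D d u v → D d v u) {x : V}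
    {Ms : List (ℕ → ℕ)} {All All' : ℕ} (hL : Lev E D e N N1 x Ms All) (M : ℕ → ℕ)
    (ha : ∀ n < N, ∀ m, (M n).testBit m = true → All.testBit m = true ∧ E (e m) (e n))
    (hb : ∀ n < N, ∀ m, (M n).testBit m = true → ∃ s, (M n).testBit s = true ∧
      ∀ k, (M n).testBit k = true →
        ReflTransGen (fun u v => Lnk D e N N1 Ms u v ∧ (M n).testBit u = true ∧
          (M n).testBit v = true) s k)
    (hc : ∀ m, All.testBit m = true → ∀ y, E (e m) y → ∃ n < N, e n = y ∧
      (M n).testBit m = true)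
    (hd : ∀ n, All'.testBit n = true ↔ n < N ∧ ∃ m, (M n).testBit m = true) :
    Lev E D e N N1 x (M :: Ms) All' := by
  have hE : ∀ n < N, ∀ m m' : ℕ, (M n).testBit m = true → (M n).testBit m' = true →
      ReflTransGen (fun u v => Lnk D e N N1 Ms u v ∧ (M n).testBit u = true ∧
          (M n).testBit v = true) m m' := by
    intro n hn m m' hm hm'
    obtain ⟨s, _, hs⟩ := hb n hn m hm
    have hsym : ∀ u v : ℕ, ReflTransGen (fun u v => Lnk D e N N1 Ms u v ∧
        (M n).testBit u = true ∧ (M n).testBit v = true) u v →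
        ReflTransGen (fun u v => Lnk D e N N1 Ms u v ∧ (M n).testBit u = true ∧
          (M n).testBit v = true) v u := by
      intro u v huv
      induction huv with
      | refl => exact ReflTransGen.refl
      | tail _ h ih => exact ReflTransGen.head ⟨h.1.symm hDs, h.2.2, h.2.1⟩ ih
    exact (hsym _ _ (hs m hm)).trans (hs m' hm')
  refine ⟨?_, ?_, ?_, ?_⟩
  · rintro n q ⟨hn, m, q0, hm, rfl, hk⟩
    obtain ⟨h1, h2⟩ := hL.valid m q0 hk
    exact ⟨by simp [h1], (ha n hn m hm).2, h2⟩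
  · rintro n q q' ⟨hn, m, q0, hm, rfl, hk⟩ ⟨_, m', q0', hm', rfl, hk'⟩
    have key : ∀ u, ReflTransGen (fun u v => Lnk D e N N1 Ms u v ∧ (M n).testBit u = true ∧
          (M n).testBit v = true) m u → ∀ q1, KK e N N1 Ms u q1 →
        ReflTransGen (St E D x (e n)) (e m :: q0) (e u :: q1) := by
      intro u hu
      induction hu with
      | refl =>
        intro q1 hq1
        exact lift_rtg hD (ha n hn m hm).2 (hL.conn m q0 q1 hk hq1)
      | @tail u v _ huv ih =>
        intro q1 hq1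
        obtain ⟨⟨r, r', hr, hr', hmv⟩, hbu, hbv⟩ := huv
        have h1 := ih r hr
        have h2 : St E D x (e n) (e u :: r) (e v :: r') :=
          ⟨⟨(ha n hn u hbu).2, (hL.valid u r hr).2⟩, ⟨(ha n hn v hbv).2, (hL.valid v r' hr').2⟩,
            hmv⟩
        exact (h1.tail h2).trans (lift_rtg hD (ha n hn v hbv).2 (hL.conn v r' q1 hr' hq1))
    exact key m' (hE n hn m m' hm hm') q0' hk'
  · intro y q hq hW
    obtain _ | ⟨y', q0⟩ := q
    · simp at hq
    obtain ⟨h1, h2⟩ := hW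
    change E y' y at h1
    obtain ⟨m, hm, hk⟩ := hL.compl y' q0 (by simpa using hq) h2
    subst hm
    obtain ⟨n, hn, hny, hb'⟩ := hc m ((hL.all m).2 ⟨q0, hk⟩) y h1
    exact ⟨n, hny, hn, m, q0, hb', rfl, hk⟩
  · intro n
    rw [hd]
    constructor
    · rintro ⟨hn, m, hm⟩
      obtain ⟨q0, hq0⟩ := (hL.all m).1 (ha n hn m hm).1
      exact ⟨e m :: q0, hn, m, q0, hm, rfl, hq0⟩
    · rintro ⟨q, hn, m, q0, hm, _, _⟩
      exact ⟨hn, m, hm⟩

theorem Lev.good {x : V} {Ms : List (ℕ → ℕ)} {All : ℕ} (hL : Lev E D e N N1 x Ms All)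
    (hu : ∀ n n', All.testBit n = true → All.testBit n' = true → e n = e n' → n = n') (z : V) :
    Good E D x z Ms.length := by
  intro p q hp hq hWp hWq
  obtain ⟨n, hn, hk⟩ := hL.compl z p hp hWp
  obtain ⟨n', hn', hk'⟩ := hL.compl z q hq hWq
  have : n = n' := hu n n' ((hL.all n).2 ⟨p, hk⟩) ((hL.all n').2 ⟨q, hk'⟩) (hn.trans hn'.symm)
  subst this
  subst hn
  exact hL.conn n p q hk hk'

theorem Lev.ne {x : V} {Ms : List (ℕ → ℕ)} {All : ℕ} (hL : Lev E D e N N1 x Ms All) {n : ℕ}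
    (hn : All.testBit n = true) : ∃ q : List V, q.length = Ms.length ∧ Wk E x (e n :: q) := by
  obtain ⟨q, hq⟩ := (hL.all n).1 hn
  exact ⟨q, hL.valid n q hq⟩

end Level

end Pool.Agent.J4H93.KT
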