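import Pool.Agent.J4H93.KT.Table

/-!
Symmetries (colour permutations and rotations), and the facts needed about one row `x`.
-/

namespace Pool.Agent.J4H93.KT

open Relation

section Abstract

variable {V ι : Type*} {E : V → V → Prop} {D : ι → V → V → Prop}

variable (E D) in
/-- a symmetry `g` with inverse `g'` -/
structure SymG (g g' : V → V) : Prop where
  gE : ∀ u v, E u v → E (g u) (g v)
  gE' : ∀ u v, E u v → E (g' u) (g' v)
  gD : ∀ d, ∃ d', ∀ u v, D d u v → D d' (g u) (g v)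
  gg' : ∀ v, g (g' v) = v

theorem Wk_map {g : V → V} (hg : ∀ u v, E u v → E (g u) (g v)) {x : V} :
    ∀ {l : List V}, Wk E x l → Wk E (g x) (l.map g) := by
  intro l
  induction l with
  | nil => intro _; trivial
  | cons z l ih =>
    intro h
    obtain ⟨h1, h2⟩ := h
    refine ⟨?_, ih h2⟩
    have h3 : (l.map g).headD (g x) = g (l.headD x) := by cases l <;> rfl
    rw [h3]
    exact hg _ _ h1

theorem Mv_map {g g' : V → V} (hg : SymG E D g g') {p q : List V} (h : Mv D p q) :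
    Mv D (p.map g) (q.map g) := by
  obtain ⟨d, h⟩ := h
  obtain ⟨d', hd'⟩ := hg.gD d
  refine ⟨d', ?_⟩
  induction h with
  | nil => exact List.Forall₂.nil
  | cons h1 _ ih => exact List.Forall₂.cons (hd' _ _ h1) ih

theorem Good_map {g g' : V → V} (hg : SymG E D g g') (hgg : ∀ v, g' (g v) = v) {x z : V} {L : ℕ}
    (h : Good E D x z L) : Good E D (g x) (g z) L := by
  intro p q hp hq hWp hWq
  have h1 : Wk E x (z :: p.map g') := by
    have := Wk_map hg.gE' hWp
    simpa [hgg] using this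
  have h2 : Wk E x (z :: q.map g') := by
    have := Wk_map hg.gE' hWq
    simpa [hgg] using this
  have h3 := h (p.map g') (q.map g') (by simpa using hp) (by simpa using hq) h1 h2
  have h4 := ReflTransGen.lift (p := St E D (g x) (g z)) (fun l => l.map g)
    (fun a b hab => by
      obtain ⟨ha, hb, hm⟩ := hab
      exact ⟨by simpa using Wk_map hg.gE ha, by simpa using Wk_map hg.gE hb, Mv_map hg hm⟩)
    _ _ h3
  have h5 : ∀ l : List V, (l.map g').map g = l := by
    intro l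
    rw [List.map_map]
    have : g ∘ g' = id := funext hg.gg'
    rw [this, List.map_id]
  change ReflTransGen _ ((p.map g').map g) ((q.map g').map g) at h4
  rw [h5, h5] at h4
  exact h4

variable (E D) in
/-- the facts about the start vertex `x` -/
structure Facts (Pr : V → Prop) (k0 : ℕ) (x : V) : Prop where
  good : ∀ z, Pr z → Good E D x z k0
  ne : ∀ w, Pr w → ∃ q : List V, q.length + 1 = k0 ∧ Wk E x (w :: q)
  lr : ∀ z' z'', Pr z' → Pr z'' → E z' x → E z'' x → ReflTransGen (LR E D Pr x) z' z''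

variable (E D) in
/-- extra facts for cyclic length `b0` -/
structure Facts' (Pr : V → Prop) (b0 : ℕ) (x : V) : Prop where
  good : Good E D x x (b0 - 1)
  cyc : ∀ y, E x y → ∃ q : List V, q.length + 2 = b0 ∧ Wk E y (x :: q)

theorem Facts.map {g g' : V → V} (hg : SymG E D g g') (hgg : ∀ v, g' (g v) = v)
    {Pr : V → Prop} (hPr : ∀ v, Pr v → Pr (g v)) (hPr' : ∀ v, Pr v → Pr (g' v)) {k0 : ℕ} {x : V}
    (h : Facts E D Pr k0 x) : Facts E D Pr k0 (g x) := by
  refine ⟨?_, ?_, ?_⟩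
  · intro z hz
    have := Good_map hg hgg (h.good (g' z) (hPr' z hz))
    rw [hg.gg'] at this
    exact this
  · intro w hw
    obtain ⟨q, hq, hW⟩ := h.ne (g' w) (hPr' w hw)
    refine ⟨q.map g, by simpa using hq, ?_⟩
    have := Wk_map hg.gE hW
    simpa [hg.gg'] using this
  · intro z' z'' hz' hz'' he' he''
    have h1 := h.lr (g' z') (g' z'') (hPr' _ hz') (hPr' _ hz'')
      (by have := hg.gE' _ _ he'; rwa [hgg] at this)
      (by have := hg.gE' _ _ he''; rwa [hgg] at this)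
    have h2 := ReflTransGen.lift (p := LR E D Pr (g x)) g (fun a b hab => by
      obtain ⟨ha, hb, h3, h4, d, hd, w, hw, h5, h6⟩ := hab
      obtain ⟨d', hd'⟩ := hg.gD d
      exact ⟨hPr _ ha, hPr _ hb, hg.gE _ _ h3, hg.gE _ _ h4, d', hd' _ _ hd, g w, hPr _ hw,
        hg.gE _ _ h5, hg.gE _ _ h6⟩) _ _ h1
    change ReflTransGen _ (g (g' z')) (g (g' z'')) at h2
    rw [hg.gg', hg.gg'] at h2
    exact h2

theorem Facts'.map {g g' : V → V} (hg : SymG E D g g') (hgg : ∀ v, g' (g v) = v)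
    {Pr : V → Prop} {b0 : ℕ} {x : V} (h : Facts' E D Pr b0 x) : Facts' E D Pr b0 (g x) := by
  refine ⟨Good_map hg hgg h.good, ?_⟩
  intro y hy
  have h1 := hg.gE' _ _ hy
  rw [hgg] at h1
  obtain ⟨q, hq, hW⟩ := h.cyc _ h1
  refine ⟨q.map g, by simpa using hq, ?_⟩
  have := Wk_map hg.gE hW
  rw [hg.gg'] at this
  simpa using this

/-- all closed walks of length `b ≥ k0 + 1` are connected -/
theorem closed_of_facts (hD : ∀ d v, D d v v) (Pr : V → Prop) (hPr : ∀ u v, E u v → Pr v)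
    {k0 : ℕ} (hk : 2 ≤ k0) (hF : ∀ x, Pr x → Facts E D Pr k0 x) (b : ℕ) (hb : k0 + 1 ≤ b)
    (c c' : ZMod b → V) (hc : Cl E c) (hc' : Cl E c') : ReflTransGen (CS E D) c c' := by
  have : NeZero b := ⟨by omega⟩
  have hall : ∀ x, Pr x → ∀ L, k0 ≤ L → (∀ z, Pr z → Good E D x z L) ∧
      (∀ w, Pr w → ∃ q : List V, q.length + 1 = L ∧ Wk E x (w :: q)) := by
    intro x hx L hL
    exact all_good hD Pr hPr hk x (hF x hx).good (hF x hx).ne
      (fun z hz z' z'' h1 h2 h3 h4 => (hF z hz).lr z' z'' h1 h2 h3 h4) L hL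
  refine closed_all hD Pr hPr k0 ?_ ?_ ?_ c c' hc hc'
  · intro x hx
    exact (hall x hx (b - 1) (by omega)).1 x hx
  · intro y y' hy hy' _
    obtain ⟨q, hq, hW⟩ := (hall y' hy' (b - 1) (by omega)).2 y hy
    exact ⟨q, by omega, hW⟩
  · intro x z hx hz
    exact (hF x hx).ne z hz

/-- all closed walks of length `b0` are connected -/
theorem closed_of_facts' (hD : ∀ d v, D d v v) (Pr : V → Prop) (hPr : ∀ u v, E u v → Pr v)
    {k0 : ℕ} (hF : ∀ x, Pr x → Facts E D Pr k0 x) (b0 : ℕ) (hb : 1 ≤ b0)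
    (hF' : ∀ x, Pr x → Facts' E D Pr b0 x)
    (c c' : ZMod b0 → V) (hc : Cl E c) (hc' : Cl E c') : ReflTransGen (CS E D) c c' := by
  have : NeZero b0 := ⟨by omega⟩
  refine closed_all hD Pr hPr k0 ?_ ?_ ?_ c c' hc hc'
  · intro x hx
    exact (hF' x hx).good
  · intro y y' hy _ hyy
    exact (hF' y hy).cyc y' hyy
  · intro x z hx hz
    exact (hF x hx).ne z hz

end Abstract

/-! ### symmetries of rows -/

/-- permute colours and rotate -/
def gmap {a : ℕ} (σ : Equiv.Perm (Fin 5)) (t : ZMod a) (x : Row a) : Row a :=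
  fun i => σ (x (i + t))

theorem gmap_gmap {a : ℕ} (σ τ : Equiv.Perm (Fin 5)) (s t : ZMod a) (x : Row a) :
    gmap σ t (gmap τ s x) = gmap (τ.trans σ) (t + s) x := by
  funext i
  simp [gmap, add_assoc]

theorem gmap_id {a : ℕ} (x : Row a) : gmap (Equiv.refl _) 0 x = x := by
  funext i
  simp [gmap]

theorem gmap_RE {a : ℕ} (σ : Equiv.Perm (Fin 5)) (t : ZMod a) (u v : Row a) (h : RE u v) :
    RE (gmap σ t u) (gmap σ t v) := by
  obtain ⟨h1, h2, h3⟩ := h
  refine ⟨fun i hi => ?_, fun i hi => ?_, fun i hi => ?_⟩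
  · have := σ.injective hi
    rw [add_right_comm] at this
    exact h1 _ this
  · exact h2 _ (σ.injective hi)
  · have := σ.injective hi
    rw [add_right_comm] at this
    exact h3 _ this

theorem gmap_Pr {a : ℕ} (σ : Equiv.Perm (Fin 5)) (t : ZMod a) (u : Row a) (h : PrR u) :
    PrR (gmap σ t u) := by
  intro i hi
  have := σ.injective hi
  rw [add_right_comm] at this
  exact h _ this

theorem gmap_RD {a : ℕ} (σ : Equiv.Perm (Fin 5)) (t : ZMod a) (d : Fin 5 × Fin 5) :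
    ∃ d', ∀ u v : Row a, RD d u v → RD d' (gmap σ t u) (gmap σ t v) := by
  refine ⟨(σ d.1, σ d.2), fun u v h i hi => ?_⟩
  have h1 : u (i + t) ≠ v (i + t) := fun h2 => hi (congrArg σ h2)
  rcases h _ h1 with ⟨h2, h3⟩ | ⟨h2, h3⟩
  · left; exact ⟨congrArg σ h2, congrArg σ h3⟩
  · right; exact ⟨congrArg σ h2, congrArg σ h3⟩

theorem gmap_Sym {a : ℕ} (σ : Equiv.Perm (Fin 5)) (t : ZMod a) :
    SymG (RE (a := a)) RD (gmap σ t) (gmap σ.symm (-t)) where
  gE := gmap_RE σ t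
  gE' := gmap_RE _ _
  gD := gmap_RD σ t
  gg' := by
    intro v
    rw [gmap_gmap]
    simp [gmap_id]

theorem gmap_inv {a : ℕ} (σ : Equiv.Perm (Fin 5)) (t : ZMod a) (v : Row a) :
    gmap σ.symm (-t) (gmap σ t v) = v := by
  rw [gmap_gmap]
  simp [gmap_id]

open Classical in
theorem exists_perm {ι : Type*} (f g : ι → Fin 5) (h : ∀ i j, f i = f j ↔ g i = g j) :
    ∃ σ : Equiv.Perm (Fin 5), ∀ i, σ (f i) = g i := by
  let F : {c // c ∈ Set.range f} → {c // c ∈ Set.range g} :=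
    fun c => ⟨g (Classical.choose c.2), ⟨_, rfl⟩⟩
  have hF : ∀ i, F ⟨f i, ⟨i, rfl⟩⟩ = ⟨g i, ⟨i, rfl⟩⟩ := by
    intro i
    apply Subtype.ext
    have h1 : f (Classical.choose (⟨i, rfl⟩ : f i ∈ Set.range f)) = f i :=
      Classical.choose_spec (⟨i, rfl⟩ : f i ∈ Set.range f)
    exact (h _ _).1 h1
  have hinj : Function.Injective F := by
    rintro ⟨_, i, rfl⟩ ⟨_, j, rfl⟩ hij
    rw [hF, hF] at hij
    have h1 : g i = g j := congrArg Subtype.val hij
    exact Subtype.ext ((h _ _).2 h1)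
  have hsurj : Function.Surjective F := by
    rintro ⟨_, i, rfl⟩
    exact ⟨⟨f i, ⟨i, rfl⟩⟩, hF i⟩
  let e := Equiv.ofBijective F ⟨hinj, hsurj⟩
  refine ⟨e.extendSubtype, fun i => ?_⟩
  rw [Equiv.extendSubtype_apply_of_mem e (f i) ⟨i, rfl⟩]
  exact congrArg Subtype.val (hF i)

/-! ### coverage of all rows by representatives -/

noncomputable def anyB (f : ℕ → Bool) (n : ℕ) : Bool :=
  Nat.rec false (fun k ih => cond (f k) true ih) n

theorem anyB_sound (f : ℕ → Bool) (n : ℕ) (h : anyB f n = true) : ∃ k < n, f k = true := by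
  induction n with
  | zero => exact absurd h (by simp [anyB])
  | succ n ih =>
    have h1 : anyB f (n + 1) = cond (f n) true (anyB f n) := rfl
    rw [h1] at h
    cases hf : f n with
    | true => exact ⟨n, Nat.lt_succ_self n, hf⟩
    | false =>
      rw [hf] at h
      obtain ⟨k, hk, h2⟩ := ih h
      exact ⟨k, Nat.lt_succ_of_lt hk, h2⟩

noncomputable def patchk (a R Cd r r0 t : ℕ) : Bool :=
  below (fun i => below (fun j => beqB (Nat.beq (dgt a R Cd r0 (Nat.mod (Nat.add i t) a))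
    (dgt a R Cd r0 (Nat.mod (Nat.add j t) a))) (Nat.beq (dgt a R Cd r i) (dgt a R Cd r j))) a) a

noncomputable def symchk (a R Cd : ℕ) (reps : List ℕ) (r : ℕ) : Bool :=
  List.rec false (fun r0 _ ih => cond (anyB (fun t => patchk a R Cd r r0 t) a) true ih) reps

theorem symchk_sound (a R Cd : ℕ) (reps : List ℕ) (r : ℕ) (h : symchk a R Cd reps r = true) :
    ∃ r0 ∈ reps, ∃ t < a, patchk a R Cd r r0 t = true := by
  induction reps with
  | nil => exact absurd h (by simp [symchk])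
  | cons r0 reps ih =>
    have h1 : symchk a R Cd (r0 :: reps) r =
      cond (anyB (fun t => patchk a R Cd r r0 t) a) true (symchk a R Cd reps r) := rfl
    rw [h1] at h
    cases hf : anyB (fun t => patchk a R Cd r r0 t) a with
    | true =>
      obtain ⟨t, ht, h2⟩ := anyB_sound _ _ hf
      exact ⟨r0, List.mem_cons_self .., t, ht, h2⟩
    | false =>
      rw [hf] at h
      obtain ⟨r1, hr1, h2⟩ := ih h
      exact ⟨r1, List.mem_cons_of_mem _ hr1, h2⟩

theorem TabOK.sym {a R C Cd U : ℕ} {PT : Tr} (h : TabOK a R C Cd U PT) (reps : List ℕ)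
    (hs : ∀ r < R, symchk a R Cd reps r = true) (x : Row a) (hx : PrR x) :
    ∃ r0 ∈ reps, ∃ (σ : Equiv.Perm (Fin 5)) (t : ZMod a), x = gmap σ t (eR a R Cd r0) := by
  have : NeZero a := ⟨by have := h.ha; omega⟩
  obtain ⟨r, hr, rfl⟩ := h.surj x hx
  obtain ⟨r0, hr0, t, ht, hp⟩ := symchk_sound _ _ _ _ _ (hs r hr)
  refine ⟨r0, hr0, ?_⟩
  have hval : ∀ i : ZMod a, (i + (t : ZMod a)).val = (i.val + t) % a := by
    intro i
    rw [ZMod.val_add, ZMod.val_cast_of_lt ht]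
  have hpat : ∀ i j : ZMod a, eR a R Cd r0 (i + (t : ZMod a)) = eR a R Cd r0 (j + (t : ZMod a)) ↔
      eR a R Cd r i = eR a R Cd r j := by
    intro i j
    unfold patchk at hp
    rw [below_iff] at hp
    have h1 := hp i.val (ZMod.val_lt i)
    rw [below_iff] at h1
    have h2 := h1 j.val (ZMod.val_lt j)
    rw [beqB_iff, beq_iff, beq_iff] at h2
    rw [Fin.ext_iff, Fin.ext_iff, h.eR_val, h.eR_val, h.eR_val, h.eR_val, hval, hval]
    exact h2
  obtain ⟨σ, hσ⟩ := exists_perm (fun i => eR a R Cd r0 (i + (t : ZMod a))) (eR a R Cd r) hpat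
  refine ⟨σ, (t : ZMod a), ?_⟩
  funext i
  exact (hσ i).symm

/-! ### predecessor links and short cycles -/

noncomputable def lnk2 (dc : ℕ → ℕ → ℕ → Bool) (pr : ℕ → ℕ) (N t n n' c : ℕ) : Bool :=
  cond (dc t n n') (cond (Nat.blt (Nat.land c 4095) N)
    (cond (tb (pr n) (Nat.land c 4095)) (tb (pr n') (Nat.land c 4095)) false) false) false

noncomputable def g2chk (dc : ℕ → ℕ → ℕ → Bool) (pr : ℕ → ℕ) (N fuel : ℕ) (g ct : ℕ → ℕ)
    (n : ℕ) : Bool :=
  lgo (fun t n' c => lnk2 dc pr N t n n' c) 36 (g n) fuel (ct n) 0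

theorem TabOK.lr {a R C Cd U : ℕ} {PT : Tr} (h : TabOK a R C Cd U PT) (r0 : ℕ) (fuel fuel' : ℕ)
    (g ct : ℕ → ℕ) (o : ℕ)
    (hl : ∀ n < R, g2chk (dcf a R C U) (prf a R Cd PT) (3 * R) fuel' g ct n = true)
    (hc : cM g fuel (Nat.land (Nat.sub (Nat.pow 2 R) 1) (prf a R Cd PT r0)) o = true)
    (z' z'' : Row a) (hz' : PrR z') (hz'' : PrR z'') (he' : RE z' (eR a R Cd r0))
    (he'' : RE z'' (eR a R Cd r0)) :
    ReflTransGen (LR RE RD PrR (eR a R Cd r0)) z' z'' := by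
  set B := Nat.land (Nat.sub (Nat.pow 2 R) 1) (prf a R Cd PT r0) with hB
  have hBbit : ∀ n, B.testBit n = true ↔ n < R ∧ RE (eR a R Cd n) (eR a R Cd r0) := by
    intro n
    rw [hB, land_bit, Bool.and_eq_true]
    have h1 : (Nat.sub (Nat.pow 2 R) 1).testBit n = true ↔ n < R := by
      have h2 : Nat.sub (Nat.pow 2 R) 1 = 2 ^ R - 1 := rfl
      rw [h2, Nat.testBit_two_pow_sub_one, decide_eq_true_eq]
    rw [h1]
    constructor
    · rintro ⟨h2, h3⟩
      exact ⟨h2, (h.prf_bit (by omega)).1 h3⟩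
    · rintro ⟨h2, h3⟩
      exact ⟨h2, (h.prf_bit (by omega)).2 h3⟩
  have hstep : ∀ u v : ℕ, ((g u).testBit v = true ∧ B.testBit u = true ∧ B.testBit v = true) →
      LR RE RD PrR (eR a R Cd r0) (eR a R Cd u) (eR a R Cd v) := by
    rintro u v ⟨h1, h2, h3⟩
    obtain ⟨hu, hu'⟩ := (hBbit u).1 h2
    obtain ⟨hv, hv'⟩ := (hBbit v).1 h3
    have h4 := hl u hu
    unfold g2chk at h4
    rcases lgo_sound _ _ _ _ _ _ h4 v h1 with h5 | ⟨t, rest, h5⟩
    · simp at h5
    · unfold lnk2 at h5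
      rw [cond_false_iff, cond_false_iff, cond_false_iff, tb_eq, tb_eq] at h5
      obtain ⟨h6, h7, h8, h9⟩ := h5
      have hlt : Nat.land rest 4095 < 3 * R := Nat.le_of_ble_eq_true h7
      exact ⟨h.eR_Pr u, h.eR_Pr v, hu', hv', dpf t, h.dcf_sound t u v h6,
        eR a R Cd (Nat.land rest 4095), h.eR_Pr _, (h.prf_bit hlt).1 h8, (h.prf_bit hlt).1 h9⟩
  have hrtg : ∀ u v : ℕ, ReflTransGen (fun u v => (g u).testBit v = true ∧ B.testBit u = true ∧
      B.testBit v = true) u v →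
      ReflTransGen (LR RE RD PrR (eR a R Cd r0)) (eR a R Cd u) (eR a R Cd v) := by
    intro u v huv
    exact ReflTransGen.lift (fun n => eR a R Cd n) (fun u v huv => hstep u v huv) _ _ huv
  have hsym : ∀ u v : Row a, ReflTransGen (LR RE RD PrR (eR a R Cd r0)) u v →
      ReflTransGen (LR RE RD PrR (eR a R Cd r0)) v u := by
    intro u v huv
    induction huv with
    | refl => exact ReflTransGen.refl
    | tail _ h1 ih =>
      obtain ⟨h2, h3, h4, h5, d, hd, w, hw, h6, h7⟩ := h1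
      exact ReflTransGen.head ⟨h3, h2, h5, h4, d, RD_symm d _ _ hd, w, hw, h7, h6⟩ ih
  obtain ⟨n', hn', rfl⟩ := h.surj z' hz'
  obtain ⟨n'', hn'', rfl⟩ := h.surj z'' hz''
  obtain ⟨s, hs, hk⟩ := cM_sound g fuel B o hc n' ((hBbit n').2 ⟨hn', he'⟩)
  have h1 := hrtg _ _ (hk n' ((hBbit n').2 ⟨hn', he'⟩))
  have h2 := hrtg _ _ (hk n'' ((hBbit n'').2 ⟨hn'', he''⟩))
  exact (hsym _ _ h1).trans h2

noncomputable def cyc3 (a R Cd : ℕ) (PT : Tr) (r0 n : ℕ) : Bool :=
  cond (tb (scf a R Cd PT r0) n)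
    (not (Nat.beq (Nat.land (Nat.land (full R) (scf a R Cd PT n)) (prf a R Cd PT r0)) 0)) true

noncomputable def cyc4 (a R Cd : ℕ) (PT : Tr) (r0 n : ℕ) : Bool :=
  cond (tb (scf a R Cd PT r0) n)
    (anyB (fun u => cond (tb (scf a R Cd PT n) u)
      (not (Nat.beq (Nat.land (Nat.land (full R) (scf a R Cd PT u)) (prf a R Cd PT r0)) 0))
      false) R) true

section

variable {a R C Cd U : ℕ} {PT : Tr}

theorem TabOK.mid (h : TabOK a R C Cd U PT) {n r0 : ℕ}
    (hb : not (Nat.beq (Nat.land (Nat.land (full R) (scf a R Cd PT n)) (prf a R Cd PT r0)) 0) =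
      true) : ∃ u : Row a, RE (eR a R Cd n) u ∧ RE u (eR a R Cd r0) := by
  have h1 : Nat.land (Nat.land (full R) (scf a R Cd PT n)) (prf a R Cd PT r0) ≠ 0 := by
    intro h2
    rw [h2] at hb
    simp at hb
  obtain ⟨u, hu⟩ := Nat.exists_testBit_of_ne_zero h1
  rw [land_bit, land_bit, Bool.and_eq_true, Bool.and_eq_true, full_bit] at hu
  obtain ⟨⟨h2, h3⟩, h4⟩ := hu
  exact ⟨eR a R Cd u, (h.scf_bit h2).1 h3, (h.prf_bit h2).1 h4⟩

theorem TabOK.cyc3_sound (h : TabOK a R C Cd U PT) {r0 : ℕ}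
    (hc : ∀ n < R, cyc3 a R Cd PT r0 n = true) (y : Row a) (hy : RE (eR a R Cd r0) y) :
    ∃ q : List (Row a), q.length + 2 = 3 ∧ Wk RE y (eR a R Cd r0 :: q) := by
  obtain ⟨n, hn, rfl⟩ := h.surj y hy.1
  have h1 := hc n hn
  unfold cyc3 at h1
  have h2 : tb (scf a R Cd PT r0) n = true := by
    rw [tb_eq, h.scf_bit (by omega)]
    exact hy
  rw [h2] at h1
  obtain ⟨u, h3, h4⟩ := h.mid h1
  exact ⟨[u], rfl, h4, h3, trivial⟩

theorem TabOK.cyc4_sound (h : TabOK a R C Cd U PT) {r0 : ℕ}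
    (hc : ∀ n < R, cyc4 a R Cd PT r0 n = true) (y : Row a) (hy : RE (eR a R Cd r0) y) :
    ∃ q : List (Row a), q.length + 2 = 4 ∧ Wk RE y (eR a R Cd r0 :: q) := by
  obtain ⟨n, hn, rfl⟩ := h.surj y hy.1
  have h1 := hc n hn
  unfold cyc4 at h1
  have h2 : tb (scf a R Cd PT r0) n = true := by
    rw [tb_eq, h.scf_bit (by omega)]
    exact hy
  rw [h2] at h1
  obtain ⟨u, hu, h3⟩ := anyB_sound _ _ h1
  rw [cond_false_iff, tb_eq, h.scf_bit (by omega)] at h3
  obtain ⟨v, h5, h6⟩ := h.mid h3.2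
  exact ⟨[v, eR a R Cd u], rfl, h6, h5, h3.1, trivial⟩

/-- facts for all rows from facts for the representatives -/
theorem TabOK.facts (h : TabOK a R C Cd U PT) (reps : List ℕ)
    (hs : ∀ r < R, symchk a R Cd reps r = true) {k0 : ℕ}
    (hF : ∀ r0 ∈ reps, Facts RE RD PrR k0 (eR a R Cd r0)) (x : Row a) (hx : PrR x) :
    Facts RE RD PrR k0 x := by
  obtain ⟨r0, hr0, σ, t, rfl⟩ := h.sym reps hs x hx
  exact (hF r0 hr0).map (gmap_Sym σ t) (gmap_inv σ t) (gmap_Pr σ t) (gmap_Pr _ _)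

theorem TabOK.facts' (h : TabOK a R C Cd U PT) (reps : List ℕ)
    (hs : ∀ r < R, symchk a R Cd reps r = true) {b0 : ℕ}
    (hF : ∀ r0 ∈ reps, Facts' RE RD PrR b0 (eR a R Cd r0)) (x : Row a) (hx : PrR x) :
    Facts' RE RD PrR b0 x := by
  obtain ⟨r0, hr0, σ, t, rfl⟩ := h.sym reps hs x hx
  exact (hF r0 hr0).map (gmap_Sym σ t) (gmap_inv σ t)

end

end Pool.Agent.J4H93.KT
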