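import Pool.Agent.J4H93.KT.Table

namespace Pool.Agent.J4H93.KT

noncomputable def C3 : ℕ := 0x22202440288209011201241028105008a080c08180830241028203044088111012220241048089100a081408284408281030241041208141202220440889009101208244404480830141022204140a041208209050089011102244024804500c10122022406040a081110301050209041
noncomputable def D3 : ℕ := 0x4e17038d42a051988c0631108445198c47132984e168b05c0d064371188451a2d06a14ca05409844270a8443194c86622d108c05828170280c1184c16220d0284219088
noncomputable def P3 : Tr := (Tr.node (Tr.node (Tr.node (Tr.node (Tr.leaf 0xfff000000000000fff000000000000fff)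
 (Tr.leaf 0xe000001c01c01c0e000001c01c01c0e000001c01c01c0)
) (Tr.node (Tr.leaf 0xfff000000000000fff000000000000fff000000000000)
 (Tr.leaf 0x812812000481481812812000481481812812000481481)
)) (Tr.node (Tr.node (Tr.leaf 0xfff000000000000fff000000000000fff000000)
 (Tr.leaf 0x248248248248000248248248248000248248248248000)
) (Tr.node (Tr.leaf 0x38038038000007038038038000007038038038000007)
 (Tr.leaf 0x124124124124000124124124124000124124124124)
))) (Tr.node (Tr.node (Tr.node (Tr.leaf 0xfff000000000000fff000000000000fff000)
 (Tr.leaf 0xe00e00e00e00000e00e00e00e00000e00e00e00e00)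
) (Tr.node (Tr.leaf 0x7007007007000007007007007000007007007007000)
 (Tr.leaf 0x124000812812812124000812812812124000812812812)
)) (Tr.node (Tr.node (Tr.leaf 0xfff000000000000fff000000000000fff000000000)
 (Tr.leaf 0x481481481000248481481481000248481481481000248)
) (Tr.node (Tr.leaf 0x1c01c00000380381c01c00000380381c01c0000038038)
 Tr.nil))))

theorem tab3_1 : below (fun r => t1chk 3 60 C3 D3 r) 60 = true := by decide +kernel
theorem tab3_2 : t2chk 3 60 P3 = true := by decide +kernel
theorem tab3_3 : below (fun n => t3chk 3 60 D3 P3 n) 180 = true := by decide +kernel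
theorem tab3_4 : below (fun r => t4chk 3 60 D3 P3 r) 60 = true := by decide +kernel
theorem tab3_U : ∀ m < 32, ∀ i < 3, ∀ v < 5, (m * 1057).testBit (5 * i + v) = m.testBit v := by
  decide +kernel

theorem tab3 : TabOK 3 60 C3 D3 1057 P3 where
  ha := by norm_num
  ha5 := by norm_num
  hR := by norm_num
  t1 := (below_iff _ _).1 tab3_1
  t2 := tab3_2
  t3 := (below_iff _ _).1 tab3_3
  t4 := (below_iff _ _).1 tab3_4
  tU := tab3_U

end Pool.Agent.J4H93.KT
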