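import Pool.Agent.J4H93.KT.Torus
import Pool.Agent.J4H93.KT.Chk

/-!
Tables of all proper rows of width `a`, and the masks used by the checks.
-/

namespace Pool.Agent.J4H93.KT

open Relation

/-- a row is proper -/
def PrR {a : ℕ} (x : Row a) : Prop := ∀ i, x i ≠ x (i + 1)

theorem RE_Pr {a : ℕ} (u v : Row a) (h : RE u v) : PrR v := h.1

theorem RD_symm {a : ℕ} (d : Fin 5 × Fin 5) (u v : Row a) (h : RD d u v) : RD d v u := by
  intro i hi
  rcases h i (Ne.symm hi) with ⟨h1, h2⟩ | ⟨h1, h2⟩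
  · exact Or.inr ⟨h2, h1⟩
  · exact Or.inl ⟨h2, h1⟩

/-- digit `i` of row number `n` (mod `R`) -/
def dgt (a R Cd n i : ℕ) : ℕ :=
  Nat.land (Nat.shiftRight Cd (Nat.add (Nat.mul (Nat.mul 3 a) (Nat.mod n R)) (Nat.mul 3 i))) 7

/-- one-hot code of row number `n` (mod `R`) -/
def cod (a R C n : ℕ) : ℕ :=
  Nat.mod (Nat.shiftRight C (Nat.mul (Nat.mul 5 a) (Nat.mod n R))) (Nat.pow 2 (Nat.mul 5 a))

/-- mask of the positions and colours not in the pair coded by `t` -/
def nmf (U t : ℕ) : ℕ :=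
  Nat.mul (Nat.xor 31 (Nat.lor (Nat.pow 2 (Nat.mod (Nat.shiftRight t 3) 5))
    (Nat.pow 2 (Nat.mod (Nat.land t 7) 5)))) U

def dcf (a R C U t n n' : ℕ) : Bool :=
  Nat.beq (Nat.land (Nat.xor (cod a R C n) (cod a R C n')) (nmf U t)) 0

def dpf (t : ℕ) : Fin 5 × Fin 5 :=
  (⟨t >>> 3 % 5, Nat.mod_lt _ (by norm_num)⟩, ⟨(t &&& 7) % 5, Nat.mod_lt _ (by norm_num)⟩)

noncomputable def forb (a : ℕ) (P : ℕ → ℕ → ℕ) (z z' : ℕ → ℕ) : ℕ :=
  Nat.rec 0 (fun i ih => Nat.lor (Nat.lor (P i (z i)) (P i (z' i))) ih) a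

noncomputable def Pm (PT : Tr) (i v : ℕ) : ℕ := PT.get (Nat.add (Nat.mul 5 i) v)

/-- mask of the nodes below `3R` -/
def full (R : ℕ) : ℕ := Nat.sub (Nat.pow 2 (Nat.mul 3 R)) 1

/-- mask of possible predecessors of row `r` -/
noncomputable def prf (a R Cd : ℕ) (PT : Tr) (r : ℕ) : ℕ :=
  Nat.xor (full R) (forb a (Pm PT) (fun i => dgt a R Cd r i)
    (fun i => dgt a R Cd r (Nat.mod (Nat.add i 1) a)))

/-- mask of possible successors of row `r` -/
noncomputable def scf (a R Cd : ℕ) (PT : Tr) (r : ℕ) : ℕ :=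
  Nat.xor (full R) (forb a (Pm PT) (fun i => dgt a R Cd r i)
    (fun i => dgt a R Cd r (Nat.mod (Nat.add i (Nat.sub a 1)) a)))

/-- the row with number `n` -/
def eR (a R Cd n : ℕ) : Row a := fun i => Fin.ofNat 5 (dgt a R Cd n i.val)

/-! ### checks for the tables -/

def beqB (a b : Bool) : Bool := cond a b (not b)

theorem beqB_iff (a b : Bool) : beqB a b = true ↔ (a = true ↔ b = true) := by
  cases a <;> cases b <;> simp [beqB]

noncomputable def t1chk (a R C Cd r : ℕ) : Bool :=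
  below (fun i => cond (Nat.blt (dgt a R Cd r i) 5)
    (cond (not (Nat.beq (dgt a R Cd r i) (dgt a R Cd r (Nat.mod (Nat.add i 1) a))))
      (below (fun v => beqB (tb (cod a R C r) (Nat.add (Nat.mul 5 i) v))
        (Nat.beq (dgt a R Cd r i) v)) 5) false) false) a

noncomputable def t3chk (a R Cd : ℕ) (PT : Tr) (n : ℕ) : Bool :=
  below (fun i => below (fun v => beqB (tb (Pm PT i v) n) (Nat.beq (dgt a R Cd n i) v)) 5) a

noncomputable def cwN (P : ℕ → ℕ → ℕ) (i : ℕ) : ℕ → ℕ → ℕ → Bool :=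
  Nat.rec (fun prev last mask => cond (Nat.beq prev last) true (not (Nat.beq mask 0)))
    (fun i ih prev last mask =>
      below (fun v => cond (Nat.beq v prev) true (ih v last (Nat.land mask (P i v)))) 5) i

noncomputable def t2chk (a R : ℕ) (PT : Tr) : Bool :=
  below (fun v => cwN (Pm PT) (Nat.sub a 1) v v
    (Nat.land (Nat.sub (Nat.pow 2 R) 1) (Pm PT (Nat.sub a 1) v))) 5

noncomputable def andall (a R Cd : ℕ) (PT : Tr) (r : ℕ) : ℕ :=
  Nat.rec (Nat.sub (Nat.pow 2 R) 1) (fun i ih => Nat.land (Pm PT i (dgt a R Cd r i)) ih) a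

noncomputable def t4chk (a R Cd : ℕ) (PT : Tr) (r : ℕ) : Bool :=
  Nat.beq (andall a R Cd PT r) (Nat.shiftLeft 1 r)

/-- all the table checks -/
structure TabOK (a R C Cd U : ℕ) (PT : Tr) : Prop where
  ha : 2 ≤ a
  ha5 : a ≤ 5
  hR : 0 < R
  t1 : ∀ r < R, t1chk a R C Cd r = true
  t2 : t2chk a R PT = true
  t3 : ∀ n < 3 * R, t3chk a R Cd PT n = true
  t4 : ∀ r < R, t4chk a R Cd PT r = true
  tU : ∀ m < 32, ∀ i < a, ∀ v < 5, (m * U).testBit (5 * i + v) = m.testBit v

section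

variable {a R C Cd U : ℕ} {PT : Tr}

theorem dgt_mod (n i : ℕ) : dgt a R Cd (n % R) i = dgt a R Cd n i := by
  unfold dgt
  have : Nat.mod (n % R) R = Nat.mod n R := Nat.mod_mod n R
  rw [this]

theorem cod_mod (n : ℕ) : cod a R C (n % R) = cod a R C n := by
  unfold cod
  have : Nat.mod (n % R) R = Nat.mod n R := Nat.mod_mod n R
  rw [this]

theorem TabOK.dlt (h : TabOK a R C Cd U PT) (n : ℕ) {i : ℕ} (hi : i < a) :
    dgt a R Cd n i < 5 := by
  rw [← dgt_mod]
  have h1 := h.t1 (n % R) (Nat.mod_lt _ h.hR)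
  unfold t1chk at h1
  rw [below_iff] at h1
  have h2 := h1 i hi
  rw [cond_false_iff] at h2
  exact Nat.le_of_ble_eq_true h2.1

theorem TabOK.dne (h : TabOK a R C Cd U PT) (n : ℕ) {i : ℕ} (hi : i < a) :
    dgt a R Cd n i ≠ dgt a R Cd n ((i + 1) % a) := by
  rw [← dgt_mod, ← dgt_mod n ((i + 1) % a)]
  have h1 := h.t1 (n % R) (Nat.mod_lt _ h.hR)
  unfold t1chk at h1
  rw [below_iff] at h1
  have h2 := h1 i hi
  rw [cond_false_iff, cond_false_iff] at h2
  intro h3
  have h4 := h2.2.1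
  have h5 : Nat.beq (dgt a R Cd (n % R) i) (dgt a R Cd (n % R) (Nat.mod (Nat.add i 1) a)) =
      true := (beq_iff _ _).2 h3
  rw [h5] at h4
  simp at h4

theorem TabOK.cbit (h : TabOK a R C Cd U PT) (n : ℕ) {i v : ℕ} (hi : i < a) (hv : v < 5) :
    (cod a R C n).testBit (5 * i + v) = true ↔ dgt a R Cd n i = v := by
  rw [← dgt_mod, ← cod_mod]
  have h1 := h.t1 (n % R) (Nat.mod_lt _ h.hR)
  unfold t1chk at h1
  rw [below_iff] at h1
  have h2 := h1 i hi
  rw [cond_false_iff, cond_false_iff, below_iff] at h2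
  have h3 := h2.2.2 v hv
  rw [beqB_iff, tb_eq, beq_iff] at h3
  exact h3

theorem TabOK.pbit (h : TabOK a R C Cd U PT) {n i v : ℕ} (hn : n < 3 * R) (hi : i < a)
    (hv : v < 5) : (Pm PT i v).testBit n = true ↔ dgt a R Cd n i = v := by
  have h1 := h.t3 n hn
  unfold t3chk at h1
  rw [below_iff] at h1
  have h2 := h1 i hi
  rw [below_iff] at h2
  have h3 := h2 v hv
  rw [beqB_iff, tb_eq, beq_iff] at h3
  exact h3

theorem eR_add (r : ℕ) : eR a R Cd (R + r) = eR a R Cd r := by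
  funext i
  unfold eR
  rw [← dgt_mod, ← dgt_mod r, Nat.add_mod_left]

theorem TabOK.eR_val (h : TabOK a R C Cd U PT) (n : ℕ) (i : ZMod a) :
    (eR a R Cd n i).val = dgt a R Cd n i.val := by
  have : NeZero a := ⟨by have := h.ha; omega⟩
  unfold eR
  rw [Fin.ofNat_eq_cast, Fin.val_natCast]
  exact Nat.mod_eq_of_lt (h.dlt n (ZMod.val_lt i))

theorem TabOK.eR_Pr (h : TabOK a R C Cd U PT) (n : ℕ) : PrR (eR a R Cd n) := by
  have : NeZero a := ⟨by have := h.ha; omega⟩
  intro i hi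
  have h1 := congrArg Fin.val hi
  rw [h.eR_val, h.eR_val] at h1
  have h2 : (i + 1).val = (i.val + 1) % a := by
    have : Fact (1 < a) := ⟨h.ha⟩
    rw [ZMod.val_add, ZMod.val_one]
  rw [h2] at h1
  exact h.dne n (ZMod.val_lt i) h1

theorem forb_bit (a : ℕ) (P : ℕ → ℕ → ℕ) (z z' : ℕ → ℕ) (n : ℕ) :
    (forb a P z z').testBit n = true ↔
      ∃ i < a, (P i (z i)).testBit n = true ∨ (P i (z' i)).testBit n = true := by
  induction a with
  | zero => simp [forb]
  | succ a ih =>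
    have h : forb (a + 1) P z z' = Nat.lor (Nat.lor (P a (z a)) (P a (z' a))) (forb a P z z') :=
      rfl
    rw [h, lor_bit, lor_bit, Bool.or_eq_true, Bool.or_eq_true, ih]
    constructor
    · rintro (h1 | ⟨i, hi, h1⟩)
      · exact ⟨a, Nat.lt_succ_self a, h1⟩
      · exact ⟨i, Nat.lt_succ_of_lt hi, h1⟩
    · rintro ⟨i, hi, h1⟩
      rcases Nat.lt_succ_iff_lt_or_eq.1 hi with h2 | h2
      · exact Or.inr ⟨i, h2, h1⟩
      · subst h2; exact Or.inl h1

theorem full_bit (R n : ℕ) : (full R).testBit n = true ↔ n < 3 * R := by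
  have h : full R = 2 ^ (3 * R) - 1 := rfl
  rw [h, Nat.testBit_two_pow_sub_one, decide_eq_true_eq]

theorem val_succ' {a : ℕ} (ha : 2 ≤ a) (i : ZMod a) : (i + 1).val = (i.val + 1) % a := by
  have : NeZero a := ⟨by omega⟩
  have : Fact (1 < a) := ⟨ha⟩
  rw [ZMod.val_add, ZMod.val_one]

theorem TabOK.prf_bit (h : TabOK a R C Cd U PT) {r n : ℕ} (hn : n < 3 * R) :
    (prf a R Cd PT r).testBit n = true ↔ RE (eR a R Cd n) (eR a R Cd r) := by
  have : NeZero a := ⟨by have := h.ha; omega⟩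
  unfold prf
  rw [xor_bit, (full_bit R n).2 hn]
  simp only [Bool.true_bne, Bool.not_eq_eq_eq_not, Bool.not_true, ← Bool.not_eq_true]
  rw [forb_bit]
  constructor
  · intro h1
    push Not at h1
    refine ⟨h.eR_Pr r, ?_, ?_⟩
    · intro i hi
      have h2 := congrArg Fin.val hi
      rw [h.eR_val, h.eR_val] at h2
      have hlt := ZMod.val_lt i
      exact (h1 i.val hlt).1 ((h.pbit hn hlt (h.dlt r hlt)).2 h2.symm)
    · intro i hi
      have h2 := congrArg Fin.val hi
      rw [h.eR_val, h.eR_val, val_succ' h.ha] at h2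
      have hlt := ZMod.val_lt i
      exact (h1 i.val hlt).2 ((h.pbit hn hlt (h.dlt r (Nat.mod_lt _ (by omega)))).2 h2.symm)
  · rintro ⟨_, h2, h3⟩ ⟨i, hi, h4⟩
    have hv : ((i : ℕ) : ZMod a).val = i := ZMod.val_cast_of_lt hi
    rcases h4 with h4 | h4
    · rw [h.pbit hn hi (h.dlt r hi)] at h4
      apply h2 (i : ZMod a)
      apply Fin.ext
      rw [h.eR_val, h.eR_val, hv]
      exact h4.symm
    · have h5 := (h.pbit hn hi (h.dlt r (Nat.mod_lt _ (by omega)))).1 h4
      apply h3 (i : ZMod a)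
      apply Fin.ext
      rw [h.eR_val, h.eR_val, val_succ' h.ha, hv]
      exact h5.symm

theorem TabOK.scf_bit (h : TabOK a R C Cd U PT) {r n : ℕ} (hn : n < 3 * R) :
    (scf a R Cd PT r).testBit n = true ↔ RE (eR a R Cd r) (eR a R Cd n) := by
  have : NeZero a := ⟨by have := h.ha; omega⟩
  have ha := h.ha
  unfold scf
  rw [xor_bit, (full_bit R n).2 hn]
  simp only [Bool.true_bne, Bool.not_eq_eq_eq_not, Bool.not_true, ← Bool.not_eq_true]
  rw [forb_bit]
  have hpred : ∀ i : ZMod a, Nat.mod (Nat.add (i + 1).val (Nat.sub a 1)) a = i.val := by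
    intro i
    have h1 : Nat.mod (Nat.add (i + 1).val (Nat.sub a 1)) a = ((i + 1).val + (a - 1)) % a := rfl
    rw [h1, val_succ' ha, Nat.mod_add_mod]
    have h2 : i.val + 1 + (a - 1) = i.val + a := by omega
    rw [h2, Nat.add_mod_right]
    exact Nat.mod_eq_of_lt (ZMod.val_lt i)
  constructor
  · intro h1
    push Not at h1
    refine ⟨h.eR_Pr n, ?_, ?_⟩
    · intro i hi
      have h2 := congrArg Fin.val hi
      rw [h.eR_val, h.eR_val] at h2
      have hlt := ZMod.val_lt i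
      exact (h1 i.val hlt).1 ((h.pbit hn hlt (h.dlt r hlt)).2 h2)
    · intro i hi
      have h2 := congrArg Fin.val hi
      rw [h.eR_val, h.eR_val] at h2
      have hlt := ZMod.val_lt (i + 1)
      have h3 := (h1 (i + 1).val hlt).2
      rw [hpred] at h3
      exact h3 ((h.pbit hn hlt (h.dlt r (ZMod.val_lt i))).2 h2)
  · rintro ⟨_, h2, h3⟩ ⟨i, hi, h4⟩
    have hv : ((i : ℕ) : ZMod a).val = i := ZMod.val_cast_of_lt hi
    rcases h4 with h4 | h4
    · rw [h.pbit hn hi (h.dlt r hi)] at h4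
      apply h2 (i : ZMod a)
      apply Fin.ext
      rw [h.eR_val, h.eR_val, hv]
      exact h4
    · have h5 := (h.pbit hn hi (h.dlt r (Nat.mod_lt _ (by omega)))).1 h4
      apply h3 ((i : ZMod a) - 1)
      apply Fin.ext
      have h6 := hpred ((i : ZMod a) - 1)
      rw [sub_add_cancel, hv] at h6
      rw [h.eR_val, h.eR_val, sub_add_cancel, hv, ← h6]
      exact h5

theorem cwN_sound (P : ℕ → ℕ → ℕ) (f : ℕ → ℕ) (hf : ∀ k, f k < 5) (last : ℕ) (h0 : f 0 ≠ last) :
    ∀ i, (∀ k < i, f k ≠ f (k + 1)) → ∀ mask, cwN P i (f i) last mask = true →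
      ∃ n, mask.testBit n = true ∧ ∀ k < i, (P k (f k)).testBit n = true := by
  intro i
  induction i with
  | zero =>
    intro _ mask h
    have h1 : cwN P 0 (f 0) last mask =
      cond (Nat.beq (f 0) last) true (not (Nat.beq mask 0)) := rfl
    rw [h1] at h
    have h2 : Nat.beq (f 0) last = false := by
      rw [← Bool.not_eq_true, beq_iff]; exact h0
    rw [h2] at h
    simp only [cond_false, Bool.not_eq_eq_eq_not, Bool.not_true] at h
    have h3 : mask ≠ 0 := by
      intro h4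
      rw [h4] at h
      simp at h
    obtain ⟨n, hn⟩ := Nat.exists_testBit_of_ne_zero h3
    exact ⟨n, hn, fun k hk => absurd hk (Nat.not_lt_zero k)⟩
  | succ i ih =>
    intro hne mask h
    have h1 : cwN P (i + 1) (f (i + 1)) last mask =
      below (fun v => cond (Nat.beq v (f (i + 1))) true
        (cwN P i v last (Nat.land mask (P i v)))) 5 := rfl
    rw [h1, below_iff] at h
    have h2 := h (f i) (hf i)
    have h3 : Nat.beq (f i) (f (i + 1)) = false := by
      rw [← Bool.not_eq_true, beq_iff]; exact hne i (Nat.lt_succ_self i)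
    rw [h3] at h2
    simp only [cond_false] at h2
    obtain ⟨n, hn, hk⟩ := ih (fun k hk => hne k (Nat.lt_succ_of_lt hk)) _ h2
    rw [land_bit, Bool.and_eq_true] at hn
    refine ⟨n, hn.1, fun k hk' => ?_⟩
    rcases Nat.lt_succ_iff_lt_or_eq.1 hk' with h4 | h4
    · exact hk k h4
    · subst h4; exact hn.2

theorem TabOK.surj (h : TabOK a R C Cd U PT) (y : Row a) (hy : PrR y) :
    ∃ r < R, eR a R Cd r = y := by
  have : NeZero a := ⟨by have := h.ha; omega⟩
  have ha := h.ha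
  let f : ℕ → ℕ := fun k => (y (k : ZMod a)).val
  have hf : ∀ k, f k < 5 := fun k => (y (k : ZMod a)).isLt
  have h2 := h.t2
  unfold t2chk at h2
  rw [below_iff] at h2
  have h3 := h2 (f (a - 1)) (hf _)
  have hne : ∀ k, f k ≠ f (k + 1) := by
    intro k hk
    have := hy (k : ZMod a)
    apply this
    apply Fin.ext
    have h4 : ((k + 1 : ℕ) : ZMod a) = (k : ZMod a) + 1 := by push_cast; rfl
    rw [← h4]
    exact hk
  have h0 : f 0 ≠ f (a - 1) := by
    intro h4
    apply hne (a - 1)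
    have h5 : f (a - 1 + 1) = f 0 := by
      have h6 : ((a - 1 + 1 : ℕ) : ZMod a) = ((0 : ℕ) : ZMod a) := by
        rw [Nat.sub_add_cancel (by omega)]
        simp
      show (y ((a - 1 + 1 : ℕ) : ZMod a)).val = (y ((0 : ℕ) : ZMod a)).val
      rw [h6]
    rw [h5]
    exact h4.symm
  obtain ⟨n, hn, hk⟩ := cwN_sound (Pm PT) f hf (f (a - 1)) h0 (a - 1) (fun k _ => hne k) _ h3
  rw [land_bit, Bool.and_eq_true] at hn
  have hn1 : (2 ^ R - 1).testBit n = true := hn.1
  have hnR : n < R := by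
    rw [Nat.testBit_two_pow_sub_one, decide_eq_true_eq] at hn1
    exact hn1
  refine ⟨n, hnR, ?_⟩
  have hall : ∀ k < a, dgt a R Cd n k = f k := by
    intro k hka
    rcases lt_or_ge k (a - 1) with h4 | h4
    · exact (h.pbit (by omega) hka (hf k)).1 (hk k h4)
    · have h5 : k = a - 1 := by omega
      subst h5
      exact (h.pbit (by omega) hka (hf _)).1 hn.2
  funext i
  apply Fin.ext
  rw [h.eR_val, hall _ (ZMod.val_lt i)]
  show (y ((i.val : ℕ) : ZMod a)).val = (y i).val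
  rw [ZMod.natCast_zmod_val]

noncomputable def andrec (R : ℕ) (Q : ℕ → ℕ) (a : ℕ) : ℕ :=
  Nat.rec (Nat.sub (Nat.pow 2 R) 1) (fun i ih => Nat.land (Q i) ih) a

theorem andrec_bit (R : ℕ) (Q : ℕ → ℕ) (n : ℕ) : ∀ a, (andrec R Q a).testBit n = true ↔
    n < R ∧ ∀ i < a, (Q i).testBit n = true := by
  intro a
  induction a with
  | zero =>
    have h0 : andrec R Q 0 = 2 ^ R - 1 := rfl
    rw [h0, Nat.testBit_two_pow_sub_one, decide_eq_true_eq]
    exact ⟨fun h => ⟨h, fun i hi => absurd hi (Nat.not_lt_zero i)⟩, fun h => h.1⟩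
  | succ a ih =>
    have h0 : andrec R Q (a + 1) = Nat.land (Q a) (andrec R Q a) := rfl
    rw [h0, land_bit, Bool.and_eq_true, ih]
    constructor
    · rintro ⟨h1, h2, h3⟩
      refine ⟨h2, fun i hi => ?_⟩
      rcases Nat.lt_succ_iff_lt_or_eq.1 hi with h4 | h4
      · exact h3 i h4
      · subst h4; exact h1
    · rintro ⟨h1, h2⟩
      exact ⟨h2 a (Nat.lt_succ_self a), h1, fun i hi => h2 i (Nat.lt_succ_of_lt hi)⟩

theorem andall_bit (a R Cd : ℕ) (PT : Tr) (r n : ℕ) :
    (andall a R Cd PT r).testBit n = true ↔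
      n < R ∧ ∀ i < a, (Pm PT i (dgt a R Cd r i)).testBit n = true :=
  andrec_bit R (fun i => Pm PT i (dgt a R Cd r i)) n a

theorem TabOK.inj (h : TabOK a R C Cd U PT) (r : ℕ) (hr : r < R) (r' : ℕ) (hr' : r' < R)
    (he : eR a R Cd r = eR a R Cd r') : r = r' := by
  have : NeZero a := ⟨by have := h.ha; omega⟩
  have h1 := h.t4 r hr
  unfold t4chk at h1
  rw [beq_iff] at h1
  have h2 : (andall a R Cd PT r).testBit r' = true := by
    rw [andall_bit]
    refine ⟨hr', fun i hi => ?_⟩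
    rw [h.pbit (by omega) hi (h.dlt r hi)]
    have h3 := congrArg Fin.val (congrFun he (i : ZMod a))
    rw [h.eR_val, h.eR_val, ZMod.val_cast_of_lt hi] at h3
    exact h3.symm
  rw [h1, shl_bit] at h2
  exact h2.symm

theorem xor31 : ∀ α < 5, ∀ β < 5, ∀ v < 5,
    (Nat.xor 31 (Nat.lor (Nat.pow 2 α) (Nat.pow 2 β))).testBit v = false → v = α ∨ v = β := by
  decide

theorem xor31_lt : ∀ α < 5, ∀ β < 5, Nat.xor 31 (Nat.lor (Nat.pow 2 α) (Nat.pow 2 β)) < 32 := by
  decide

theorem TabOK.dcf_sound (h : TabOK a R C Cd U PT) (t n n' : ℕ) (hd : dcf a R C U t n n' = true) :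
    RD (dpf t) (eR a R Cd n) (eR a R Cd n') := by
  have : NeZero a := ⟨by have := h.ha; omega⟩
  unfold dcf at hd
  rw [beq_iff] at hd
  have hα : Nat.mod (Nat.shiftRight t 3) 5 < 5 := Nat.mod_lt _ (by norm_num)
  have hβ : Nat.mod (Nat.land t 7) 5 < 5 := Nat.mod_lt _ (by norm_num)
  have key : ∀ i < a, ∀ v < 5, (Nat.xor (cod a R C n) (cod a R C n')).testBit (5 * i + v) = true →
      v = Nat.mod (Nat.shiftRight t 3) 5 ∨ v = Nat.mod (Nat.land t 7) 5 := by
    intro i hi v hv hx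
    have h1 : (Nat.land (Nat.xor (cod a R C n) (cod a R C n')) (nmf U t)).testBit (5 * i + v) =
        false := by rw [hd]; simp
    rw [land_bit, hx, Bool.true_and] at h1
    have h2 : (nmf U t).testBit (5 * i + v) = (Nat.xor 31 (Nat.lor
        (Nat.pow 2 (Nat.mod (Nat.shiftRight t 3) 5))
        (Nat.pow 2 (Nat.mod (Nat.land t 7) 5)))).testBit v :=
      h.tU _ (xor31_lt _ hα _ hβ) i hi v hv
    rw [h2] at h1
    exact xor31 _ hα _ hβ v hv h1
  intro i hi
  have hlt := ZMod.val_lt i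
  have hne : dgt a R Cd n i.val ≠ dgt a R Cd n' i.val := by
    intro h1
    apply hi
    apply Fin.ext
    rw [h.eR_val, h.eR_val, h1]
  have hv := h.dlt n hlt
  have hv' := h.dlt n' hlt
  have hx1 : (Nat.xor (cod a R C n) (cod a R C n')).testBit (5 * i.val + dgt a R Cd n i.val) =
      true := by
    rw [xor_bit, (h.cbit n hlt hv).2 rfl]
    have : (cod a R C n').testBit (5 * i.val + dgt a R Cd n i.val) = false := by
      rw [← Bool.not_eq_true, h.cbit n' hlt hv]
      exact fun h1 => hne h1.symm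
    rw [this]; rfl
  have hx2 : (Nat.xor (cod a R C n) (cod a R C n')).testBit (5 * i.val + dgt a R Cd n' i.val) =
      true := by
    rw [xor_bit, (h.cbit n' hlt hv').2 rfl]
    have : (cod a R C n).testBit (5 * i.val + dgt a R Cd n' i.val) = false := by
      rw [← Bool.not_eq_true, h.cbit n hlt hv']
      exact hne
    rw [this]; rfl
  have k1 := key _ hlt _ hv hx1
  have k2 := key _ hlt _ hv' hx2
  rw [← h.eR_val] at k1 k2 hne
  rw [← h.eR_val n'] at hne
  have d1 : (dpf t).1.val = Nat.mod (Nat.shiftRight t 3) 5 := rfl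
  have d2 : (dpf t).2.val = Nat.mod (Nat.land t 7) 5 := rfl
  rw [← d1, ← d2] at k1 k2
  rcases k1 with k1 | k1
  · left
    refine ⟨Fin.ext k1, ?_⟩
    rcases k2 with k2 | k2
    · exact absurd (k1.trans k2.symm) hne
    · exact Fin.ext k2
  · right
    refine ⟨Fin.ext k1, ?_⟩
    rcases k2 with k2 | k2
    · exact Fin.ext k2
    · exact absurd (k1.trans k2.symm) hne

end

end Pool.Agent.J4H93.KT
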