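import Mathlib

/-!
Walks in a digraph, closed walks, and moves that change a walk by a `D d`-step in every
coordinate.  Walks are stored as lists in reverse order (the last vertex first); the start
vertex `x` is not part of the list.
-/

namespace Pool.Agent.J4H93.KT

open Relation

section Walk

variable {V ι : Type*} (E : V → V → Prop) (D : ι → V → V → Prop)

/-- `Wk E x l` : `x → ... → l[1] → l[0]` is a walk. -/
def Wk (x : V) : List V → Prop
  | [] => True
  | z :: l => E (l.headD x) z ∧ Wk x l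

/-- all entries differ by a `D d`-step, for a common `d` -/
def Mv (p q : List V) : Prop := ∃ d, List.Forall₂ (D d) p q

/-- a move between the inner lists `p`, `q` of walks from `x` to `z` -/
def St (x z : V) (p q : List V) : Prop := Wk E x (z :: p) ∧ Wk E x (z :: q) ∧ Mv D p q

/-- all walks from `x` to `z` with `L` inner vertices are connected by moves -/
def Good (x z : V) (L : ℕ) : Prop :=
  ∀ p q : List V, p.length = L → q.length = L → Wk E x (z :: p) → Wk E x (z :: q) →
    ReflTransGen (St E D x z) p q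

variable {E D}

theorem forall₂_refl' {d : ι} (hD : ∀ d v, D d v v) (l : List V) : List.Forall₂ (D d) l l := by
  induction l with
  | nil => exact List.Forall₂.nil
  | cons a l ih => exact List.Forall₂.cons (hD d a) ih

theorem St.lift (hD : ∀ d v, D d v v) {x y z : V} (hyz : E y z) {p q : List V}
    (h : St E D x y p q) : St E D x z (y :: p) (y :: q) := by
  obtain ⟨h1, h2, d, h3⟩ := h
  exact ⟨⟨hyz, h1⟩, ⟨hyz, h2⟩, d, List.Forall₂.cons (hD d y) h3⟩

theorem lift_rtg (hD : ∀ d v, D d v v) {x y z : V} (hyz : E y z) {p q : List V}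
    (h : ReflTransGen (St E D x y) p q) : ReflTransGen (St E D x z) (y :: p) (y :: q) :=
  ReflTransGen.lift (fun l => y :: l) (fun _ _ hab => St.lift hD hyz hab) _ _ h

variable (E D) in
/-- linking relation between predecessors of `z` -/
def LR (Pr : V → Prop) (z u v : V) : Prop :=
  Pr u ∧ Pr v ∧ E u z ∧ E v z ∧ ∃ d, D d u v ∧ ∃ w, Pr w ∧ E w u ∧ E w v

theorem good_step (hD : ∀ d v, D d v v) (Pr : V → Prop) (hPr : ∀ u v, E u v → Pr v)
    {L : ℕ} (x : V) (hG : ∀ z, Pr z → Good E D x z L)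
    (hN : ∀ w, Pr w → ∃ q : List V, q.length + 1 = L ∧ Wk E x (w :: q))
    (hl : ∀ z, Pr z → ∀ z' z'', Pr z' → Pr z'' → E z' z → E z'' z →
      ReflTransGen (LR E D Pr z) z' z'') :
    ∀ z, Pr z → Good E D x z (L + 1) := by
  intro z hz p q hp hq hWp hWq
  obtain _ | ⟨z', p1⟩ := p
  · simp at hp
  obtain _ | ⟨z'', q1⟩ := q
  · simp at hq
  have hp1 : p1.length = L := by simpa using hp
  have hq1 : q1.length = L := by simpa using hq
  obtain ⟨he', hw'⟩ := hWp
  obtain ⟨he'', hw''⟩ := hWq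
  change E z' z at he'
  change E z'' z at he''
  have hPz' : Pr z' := hPr _ _ hw'.1
  have hPz'' : Pr z'' := hPr _ _ hw''.1
  have key : ∀ v, ReflTransGen (LR E D Pr z) z' v → ∀ r : List V, r.length = L → E v z →
      Wk E x (v :: r) → ReflTransGen (St E D x z) (z' :: p1) (v :: r) := by
    intro v hv
    induction hv with
    | refl =>
      intro r hr hvz hwr
      exact lift_rtg hD hvz (hG z' hPz' p1 r hp1 hr hw' hwr)
    | @tail u v _ huv ih =>
      intro r hr hvz hwr
      obtain ⟨hPu, hPv, huz, _, d, hd, w, hPw, hwu, hwv⟩ := huv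
      obtain ⟨q0, hq0, hWq0⟩ := hN w hPw
      have h1 := ih (w :: q0) (by simpa using hq0) huz ⟨hwu, hWq0⟩
      have h2 : St E D x z (u :: w :: q0) (v :: w :: q0) := by
        refine ⟨⟨huz, hwu, hWq0⟩, ⟨hvz, hwv, hWq0⟩, d, ?_⟩
        exact List.Forall₂.cons hd (forall₂_refl' hD _)
      have h3 := lift_rtg hD hvz (hG v hPv (w :: q0) r (by simpa using hq0) hr ⟨hwv, hWq0⟩ hwr)
      exact (h1.tail h2).trans h3
  exact key z'' (hl z hz z' z'' hPz' hPz'' he' he'') q1 hq1 he'' hw''

theorem nonempty_step (Pr : V → Prop) (hPr : ∀ u v, E u v → Pr v) {L : ℕ} (hL : 2 ≤ L) (x : V)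
    (hN : ∀ w, Pr w → ∃ q : List V, q.length + 1 = L ∧ Wk E x (w :: q)) :
    ∀ w, Pr w → ∃ q : List V, q.length + 1 = L + 1 ∧ Wk E x (w :: q) := by
  intro w hw
  obtain ⟨q, hq, hWq⟩ := hN w hw
  obtain _ | ⟨w', q'⟩ := q
  · simp at hq; omega
  obtain ⟨h1, h2⟩ := hWq
  change E w' w at h1
  obtain ⟨q'', hq'', hW''⟩ := hN w' (hPr _ _ h2.1)
  exact ⟨w' :: q'', by simpa using hq'', h1, hW''⟩

theorem all_good (hD : ∀ d v, D d v v) (Pr : V → Prop) (hPr : ∀ u v, E u v → Pr v)
    {k : ℕ} (hk : 2 ≤ k) (x : V) (hG : ∀ z, Pr z → Good E D x z k)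
    (hN : ∀ w, Pr w → ∃ q : List V, q.length + 1 = k ∧ Wk E x (w :: q))
    (hl : ∀ z, Pr z → ∀ z' z'', Pr z' → Pr z'' → E z' z → E z'' z →
      ReflTransGen (LR E D Pr z) z' z'') (L : ℕ) (hL : k ≤ L) :
    (∀ z, Pr z → Good E D x z L) ∧
      (∀ w, Pr w → ∃ q : List V, q.length + 1 = L ∧ Wk E x (w :: q)) := by
  induction L, hL using Nat.le_induction with
  | base => exact ⟨hG, hN⟩
  | succ L hL ih =>
    exact ⟨good_step hD Pr hPr x ih.1 ih.2 hl, nonempty_step Pr hPr (by omega) x ih.2⟩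

/-! ### closed walks -/

variable (E) in
/-- closed walks of length `b` -/
def Cl {b : ℕ} (c : ZMod b → V) : Prop := ∀ j, E (c j) (c (j + 1))

variable (E D) in
/-- moves between closed walks -/
def CS {b : ℕ} (c c' : ZMod b → V) : Prop := Cl E c ∧ Cl E c' ∧ ∃ d, ∀ j, D d (c j) (c' j)

/-- the closed walk with `x` in position `i0` and the list `q` before it (cyclically) -/
def cl {b : ℕ} (i0 : ZMod b) (x : V) (q : List V) : ZMod b → V :=
  fun j => (q ++ [x]).getD (i0 - 1 - j).val x

theorem Wk_get {x : V} : ∀ {q : List V}, Wk E x q → ∀ k, k < q.length →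
    E ((q ++ [x]).getD (k + 1) x) ((q ++ [x]).getD k x) := by
  intro q
  induction q with
  | nil => intro _ k hk; simp at hk
  | cons z l ih =>
    intro h k hk
    obtain ⟨h1, h2⟩ := h
    cases k with
    | zero =>
      cases l with
      | nil => simpa using h1
      | cons z' l' => simpa using h1
    | succ k =>
      have := ih h2 k (by simpa using hk)
      simpa using this

theorem cl_self {b : ℕ} [NeZero b] (i0 : ZMod b) (x : V) (q : List V) (hq : q.length + 1 = b) :
    cl i0 x q i0 = x := by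
  unfold cl
  have h1 : (i0 - 1 - i0).val = b - 1 := by
    have : i0 - 1 - i0 = -1 := by ring
    rw [this]
    obtain _ | b := b
    · omega
    · rw [ZMod.val_neg_one]; rfl
  rw [h1]
  have : b - 1 = q.length := by omega
  rw [this]
  simp

theorem val_sub_succ {b : ℕ} [NeZero b] (t : ZMod b) :
    (t ≠ 0 → (t - 1).val + 1 = t.val) ∧ (t = 0 → (t - 1).val = b - 1) := by
  have hb : 0 < b := Nat.pos_of_ne_zero (NeZero.ne b)
  constructor
  · intro ht
    have h1 : t.val ≠ 0 := by
      intro h; exact ht ((ZMod.val_eq_zero t).1 h)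
    have h2 : t - 1 = ((t.val - 1 : ℕ) : ZMod b) := by
      rw [Nat.cast_sub (by omega)]
      simp
    rw [h2, ZMod.val_natCast, Nat.mod_eq_of_lt]
    · omega
    · have := ZMod.val_lt t
      omega
  · intro ht
    rw [ht]
    have : (0 : ZMod b) - 1 = ((b - 1 : ℕ) : ZMod b) := by
      rw [Nat.cast_sub (by omega)]
      simp
    rw [this, ZMod.val_natCast, Nat.mod_eq_of_lt (by omega)]

theorem cl_closed {b : ℕ} [NeZero b] (i0 : ZMod b) (x : V) (q : List V) (hq : q.length + 1 = b)
    (hW : Wk E x (x :: q)) : Cl E (cl i0 x q) := by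
  intro j
  obtain ⟨h1, h2⟩ := hW
  unfold cl
  have hs : i0 - 1 - (j + 1) = (i0 - 1 - j) - 1 := by ring
  rw [hs]
  set t := i0 - 1 - j with ht
  by_cases h0 : t = 0
  · rw [(val_sub_succ t).2 h0, h0]
    have : b - 1 = q.length := by omega
    rw [this]
    have h3 : (q ++ [x]).getD q.length x = x := by simp
    rw [h3]
    have h4 : (q ++ [x]).getD (0 : ZMod b).val x = q.headD x := by
      rw [ZMod.val_zero]
      cases q <;> simp
    rw [h4]
    exact h1
  · have h3 := (val_sub_succ t).1 h0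
    rw [← h3]
    apply Wk_get h2
    have := ZMod.val_lt t
    omega

/-- the list `[c (i0+n), ..., c (i0+1)]` -/
def rev {b : ℕ} (c : ZMod b → V) (i0 : ZMod b) : ℕ → List V
  | 0 => []
  | n + 1 => c (i0 + ((n + 1 : ℕ) : ZMod b)) :: rev c i0 n

theorem rev_length {b : ℕ} (c : ZMod b → V) (i0 : ZMod b) (n : ℕ) : (rev c i0 n).length = n := by
  induction n with
  | zero => rfl
  | succ n ih => simp [rev, ih]

theorem rev_headD {b : ℕ} (c : ZMod b → V) (i0 : ZMod b) (n : ℕ) :
    (rev c i0 n).headD (c i0) = c (i0 + (n : ZMod b)) := by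
  cases n with
  | zero => simp [rev]
  | succ n => simp [rev]

theorem rev_Wk {b : ℕ} (c : ZMod b → V) (hc : Cl E c) (i0 : ZMod b) (n : ℕ) :
    Wk E (c i0) (rev c i0 n) := by
  induction n with
  | zero => trivial
  | succ n ih =>
    refine ⟨?_, ih⟩
    rw [rev_headD]
    have := hc (i0 + (n : ZMod b))
    have h2 : i0 + (n : ZMod b) + 1 = i0 + ((n + 1 : ℕ) : ZMod b) := by push_cast; ring
    rw [h2] at this
    exact this

theorem rev_Wk_closed {b : ℕ} [NeZero b] (c : ZMod b → V) (hc : Cl E c) (i0 : ZMod b) :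
    Wk E (c i0) (c i0 :: rev c i0 (b - 1)) := by
  have hb : 0 < b := Nat.pos_of_ne_zero (NeZero.ne b)
  refine ⟨?_, rev_Wk c hc i0 _⟩
  rw [rev_headD]
  have := hc (i0 + ((b - 1 : ℕ) : ZMod b))
  have h2 : i0 + ((b - 1 : ℕ) : ZMod b) + 1 = i0 := by
    rw [Nat.cast_sub (by omega)]
    simp
  rw [h2] at this
  exact this

theorem rev_getD {b : ℕ} (c : ZMod b → V) (i0 : ZMod b) (x : V) : ∀ n v : ℕ, v ≤ n →
    (rev c i0 n ++ [c i0]).getD v x = c (i0 + ((n - v : ℕ) : ZMod b)) := by
  intro n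
  induction n with
  | zero =>
    intro v hv
    have : v = 0 := by omega
    subst this
    simp [rev]
  | succ n ih =>
    intro v hv
    cases v with
    | zero => simp [rev]
    | succ v =>
      have h1 := ih v (by omega)
      have h2 : n + 1 - (v + 1) = n - v := by omega
      rw [h2, ← h1]
      simp [rev]

theorem cl_rev {b : ℕ} [NeZero b] (c : ZMod b → V) (i0 : ZMod b) :
    cl i0 (c i0) (rev c i0 (b - 1)) = c := by
  have hb : 0 < b := Nat.pos_of_ne_zero (NeZero.ne b)
  funext j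
  unfold cl
  have hv : (i0 - 1 - j).val ≤ b - 1 := by
    have := ZMod.val_lt (i0 - 1 - j)
    omega
  rw [rev_getD c i0 _ _ _ hv]
  congr 1
  rw [Nat.cast_sub hv, Nat.cast_sub (by omega)]
  simp only [CharP.cast_eq_zero, Nat.cast_one, zero_sub, ZMod.natCast_val, ZMod.cast_id', id_eq]
  ring

theorem cl_D {b : ℕ} (hD : ∀ d v, D d v v) (i0 : ZMod b) (x : V) {p q : List V} {d : ι}
    (h : List.Forall₂ (D d) p q) (j : ZMod b) : D d (cl i0 x p j) (cl i0 x q j) := by
  unfold cl
  generalize (i0 - 1 - j).val = k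
  induction h generalizing k with
  | nil => exact hD _ _
  | cons h1 _ ih =>
    cases k with
    | zero => simpa using h1
    | succ k => simpa using ih k

theorem closed_star {b : ℕ} [NeZero b] (hD : ∀ d v, D d v v) (c c' : ZMod b → V) (hc : Cl E c)
    (hc' : Cl E c') (i0 : ZMod b) (h0 : c i0 = c' i0)
    (hG : Good E D (c i0) (c i0) (b - 1)) : ReflTransGen (CS E D) c c' := by
  have hb : 0 < b := Nat.pos_of_ne_zero (NeZero.ne b)
  have h1 := hG (rev c i0 (b - 1)) (rev c' i0 (b - 1)) (rev_length _ _ _) (rev_length _ _ _)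
    (rev_Wk_closed c hc i0) (by rw [h0]; exact rev_Wk_closed c' hc' i0)
  have key : ∀ p q : List V, ReflTransGen (St E D (c i0) (c i0)) p q → p.length + 1 = b →
      q.length + 1 = b ∧ ReflTransGen (CS E D) (cl i0 (c i0) p) (cl i0 (c i0) q) := by
    intro p q hpq hp
    induction hpq with
    | refl => exact ⟨hp, ReflTransGen.refl⟩
    | tail _ hqr ih =>
      obtain ⟨hq, hR⟩ := ih
      obtain ⟨hw1, hw2, d, hd⟩ := hqr
      have hr := hd.length_eq
      refine ⟨by omega, hR.tail ?_⟩
      exact ⟨cl_closed i0 _ _ hq hw1, cl_closed i0 _ _ (by omega) hw2, d,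
        fun j => cl_D hD i0 _ hd j⟩
  have h2 := (key _ _ h1 (by rw [rev_length]; omega)).2
  rw [cl_rev c i0] at h2
  have h3 : cl i0 (c i0) (rev c' i0 (b - 1)) = c' := by
    rw [h0]; exact cl_rev c' i0
  rw [h3] at h2
  exact h2

theorem closed_all {b : ℕ} [NeZero b] (hD : ∀ d v, D d v v) (Pr : V → Prop)
    (hPr : ∀ u v, E u v → Pr v) (k0 : ℕ)
    (H1 : ∀ x, Pr x → Good E D x x (b - 1))
    (H2 : ∀ y y', Pr y → Pr y' → E y y' → ∃ q : List V, q.length + 2 = b ∧ Wk E y' (y :: q))
    (H3 : ∀ x z, Pr x → Pr z → ∃ q : List V, q.length + 1 = k0 ∧ Wk E x (z :: q))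
    (c c' : ZMod b → V) (hc : Cl E c) (hc' : Cl E c') : ReflTransGen (CS E D) c c' := by
  have hPc : ∀ (d : ZMod b → V), Cl E d → ∀ j, Pr (d j) := by
    intro d hd j
    have := hd (j - 1)
    rw [sub_add_cancel] at this
    exact hPr _ _ this
  have H2' : ∀ y y', Pr y → Pr y' → E y y' → ∀ i : ZMod b, ∃ d : ZMod b → V, Cl E d ∧ d i = y ∧
      d (i + 1) = y' := by
    intro y y' hy hy' hyy i
    obtain ⟨q, hq, hW⟩ := H2 y y' hy hy' hyy
    have hlen : (y :: q).length + 1 = b := by simpa using hq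
    refine ⟨cl (i + 1) y' (y :: q), cl_closed _ _ _ hlen ⟨hyy, hW⟩, ?_, cl_self _ _ _ hlen⟩
    unfold cl
    have : i + 1 - 1 - i = 0 := by ring
    rw [this, ZMod.val_zero]
    simp
  have key : ∀ l : List V, Wk E (c 0) l → ∀ c'' : ZMod b → V, Cl E c'' →
      c'' (l.length : ZMod b) = l.headD (c 0) → ReflTransGen (CS E D) c c'' := by
    intro l
    induction l with
    | nil =>
      intro _ c'' hc'' h
      have h' : c 0 = c'' 0 := by simpa using h.symm
      exact closed_star hD c c'' hc hc'' 0 h' (H1 _ (hPc c hc 0))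
    | cons z l ih =>
      intro hW c'' hc'' h
      obtain ⟨h1, h2⟩ := hW
      have hPy : Pr (l.headD (c 0)) := by
        cases l with
        | nil => exact hPc c hc 0
        | cons y l' => exact hPr _ _ h2.1
      obtain ⟨d, hd, hd1, hd2⟩ := H2' _ z hPy (hPr _ _ h1) h1 (l.length : ZMod b)
      have h3 := ih h2 d hd hd1
      have h4 : d ((l.length : ZMod b) + 1) = c'' ((l.length : ZMod b) + 1) := by
        rw [hd2]
        have : (((z :: l).length : ℕ) : ZMod b) = (l.length : ZMod b) + 1 := by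
          simp
        rw [this] at h
        simpa using h.symm
      exact h3.trans (closed_star hD d c'' hd hc'' _ h4 (H1 _ (hPc d hd _)))
  obtain ⟨q, hq, hW⟩ := H3 (c 0) (c' (k0 : ZMod b)) (hPc c hc _) (hPc c' hc' _)
  refine key _ hW c' hc' ?_
  have : (c' (k0 : ZMod b) :: q).length = k0 := by simpa using hq
  rw [this]
  rfl

end Walk

end Pool.Agent.J4H93.KT
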