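import Pool.Agent.J4H93.KT.TwoDiff
import Pool.Agent.J4H93.KT.Walk

/-!
Colourings of the triangulated toroidal grid as closed walks of rows.
-/

namespace Pool.Agent.J4H93.KT

open Relation

/-- colourings of one row (a cycle of length `a`) -/
abbrev Row (a : ℕ) := ZMod a → Fin 5

/-- the row `y` is proper and can be placed above the row `x` -/
def RE {a : ℕ} (x y : Row a) : Prop :=
  (∀ i, y i ≠ y (i + 1)) ∧ (∀ i, y i ≠ x i) ∧ (∀ i, y (i + 1) ≠ x i)

/-- the rows `x` and `y` differ only by exchanging the colours `d.1`, `d.2` -/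
def RD {a : ℕ} (d : Fin 5 × Fin 5) (x y : Row a) : Prop :=
  ∀ i, x i ≠ y i → (x i = d.1 ∧ y i = d.2) ∨ (x i = d.2 ∧ y i = d.1)

theorem RD_refl {a : ℕ} (d : Fin 5 × Fin 5) (x : Row a) : RD d x x :=
  fun _ h => absurd rfl h

theorem adj_fwd {a b : ℕ} {u v : ZMod a × ZMod b} (h : (torusGrid a b).Adj u v) :
    (v - u = (1, 0) ∨ v - u = (0, 1) ∨ v - u = (1, 1)) ∨
      (u - v = (1, 0) ∨ u - v = (0, 1) ∨ u - v = (1, 1)) := by
  unfold torusGrid at h
  rw [SimpleGraph.fromRel_adj] at h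
  exact h.2

theorem one_ne_zero' {a : ℕ} (ha : 2 ≤ a) : (1 : ZMod a) ≠ 0 := by
  have : Fact (1 < a) := ⟨ha⟩
  exact one_ne_zero

theorem adj_10 {a b : ℕ} (ha : 2 ≤ a) (i : ZMod a) (j : ZMod b) :
    (torusGrid a b).Adj (i, j) (i + 1, j) := by
  unfold torusGrid
  rw [SimpleGraph.fromRel_adj]
  refine ⟨?_, Or.inl (Or.inl ?_)⟩
  · intro h
    have h1 : i = i + 1 := congrArg Prod.fst h
    exact one_ne_zero' ha (by simpa using h1)
  · ext <;> simp

theorem adj_01 {a b : ℕ} (hb : 2 ≤ b) (i : ZMod a) (j : ZMod b) :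
    (torusGrid a b).Adj (i, j) (i, j + 1) := by
  unfold torusGrid
  rw [SimpleGraph.fromRel_adj]
  refine ⟨?_, Or.inl (Or.inr (Or.inl ?_))⟩
  · intro h
    have h1 : j = j + 1 := congrArg Prod.snd h
    exact one_ne_zero' hb (by simpa using h1)
  · ext <;> simp

theorem adj_11 {a b : ℕ} (hb : 2 ≤ b) (i : ZMod a) (j : ZMod b) :
    (torusGrid a b).Adj (i, j) (i + 1, j + 1) := by
  unfold torusGrid
  rw [SimpleGraph.fromRel_adj]
  refine ⟨?_, Or.inl (Or.inr (Or.inr ?_))⟩
  · intro h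
    have h1 : j = j + 1 := congrArg Prod.snd h
    exact one_ne_zero' hb (by simpa using h1)
  · ext <;> simp

theorem torus_fwd {a b : ℕ} [NeZero a] [NeZero b] (ha : 2 ≤ a) (hb : 2 ≤ b)
    (H : ∀ c c' : ZMod b → Row a, Cl RE c → Cl RE c' → ReflTransGen (CS RE RD) c c')
    (φ ψ : (torusGrid a b).Coloring (Fin 5)) : KempeEquivalent φ ψ := by
  have hcl : ∀ φ : (torusGrid a b).Coloring (Fin 5), Cl RE (fun j i => φ (i, j)) := by
    intro φ j
    refine ⟨fun i => φ.valid (adj_10 ha i (j + 1)), fun i => ?_, fun i => ?_⟩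
    · exact (φ.valid (adj_01 hb i j)).symm
    · exact (φ.valid (adj_11 hb i j)).symm
  have hval : ∀ c : ZMod b → Row a, Cl RE c → ∀ {u v : ZMod a × ZMod b},
      (torusGrid a b).Adj u v → c u.2 u.1 ≠ c v.2 v.1 := by
    have h1 : ∀ c : ZMod b → Row a, Cl RE c → ∀ u v : ZMod a × ZMod b,
        (v - u = (1, 0) ∨ v - u = (0, 1) ∨ v - u = (1, 1)) → c u.2 u.1 ≠ c v.2 v.1 := by
      rintro c hc ⟨i, j⟩ ⟨i', j'⟩ h
      have hj := hc j
      have hj' := hc (j - 1)
      rw [sub_add_cancel] at hj'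
      simp only [Prod.mk_sub_mk, Prod.mk.injEq] at h
      rcases h with ⟨h2, h3⟩ | ⟨h2, h3⟩ | ⟨h2, h3⟩
      · have e1 : i' = i + 1 := by rw [← h2]; ring
        have e2 : j' = j := by rw [← sub_eq_zero]; exact h3
        subst e1; subst e2
        exact hj'.1 i
      · have e1 : i' = i := by rw [← sub_eq_zero]; exact h2
        have e2 : j' = j + 1 := by rw [← h3]; ring
        subst e1; subst e2
        exact (hj.2.1 _).symm
      · have e1 : i' = i + 1 := by rw [← h2]; ring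
        have e2 : j' = j + 1 := by rw [← h3]; ring
        subst e1; subst e2
        exact (hj.2.2 _).symm
    intro c hc u v huv
    rcases adj_fwd huv with h | h
    · exact h1 c hc u v h
    · exact (h1 c hc v u h).symm
  let mk : ∀ c : ZMod b → Row a, Cl RE c → (torusGrid a b).Coloring (Fin 5) :=
    fun c hc => SimpleGraph.Coloring.mk (fun u => c u.2 u.1) (hval c hc)
  have hmk : ∀ (c : ZMod b → Row a) (hc : Cl RE c) (u), mk c hc u = c u.2 u.1 :=
    fun c hc u => rfl
  have key : ∀ c c' : ZMod b → Row a, ReflTransGen (CS RE RD) c c' → ∀ (hc : Cl RE c)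
      (hc' : Cl RE c'), KempeEquivalent (mk c hc) (mk c' hc') := by
    intro c c' h
    induction h with
    | refl => intro _ _; exact ReflTransGen.refl
    | tail _ huv ih =>
      intro hc hc'
      obtain ⟨hu, hv, d, hd⟩ := huv
      refine (ih hc hu).trans ?_
      apply kempe_of_twoDiff d.1 d.2
      intro w hw
      exact hd w.2 w.1 hw
  have h3 := key _ _ (H _ _ (hcl φ) (hcl ψ)) (hcl φ) (hcl ψ)
  have h4 : ∀ φ : (torusGrid a b).Coloring (Fin 5), mk (fun j i => φ (i, j)) (hcl φ) = φ := by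
    intro φ
    apply RelHom.ext
    rintro ⟨i, j⟩
    rfl
  rw [h4, h4] at h3
  exact h3

theorem torus_bwd {a b : ℕ} [NeZero a] [NeZero b] (ha : 2 ≤ a) (hb : 2 ≤ b)
    (H : ∀ c c' : ZMod a → Row b, Cl RE c → Cl RE c' → ReflTransGen (CS RE RD) c c')
    (φ ψ : (torusGrid a b).Coloring (Fin 5)) : KempeEquivalent φ ψ := by
  have hcl : ∀ φ : (torusGrid a b).Coloring (Fin 5), Cl RE (fun i j => φ (i, j)) := by
    intro φ j
    refine ⟨fun i => φ.valid (adj_01 hb (j + 1) i), fun i => ?_, fun i => ?_⟩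
    · exact (φ.valid (adj_10 ha j i)).symm
    · exact (φ.valid (adj_11 hb j i)).symm
  have hval : ∀ c : ZMod a → Row b, Cl RE c → ∀ {u v : ZMod a × ZMod b},
      (torusGrid a b).Adj u v → c u.1 u.2 ≠ c v.1 v.2 := by
    have h1 : ∀ c : ZMod a → Row b, Cl RE c → ∀ u v : ZMod a × ZMod b,
        (v - u = (1, 0) ∨ v - u = (0, 1) ∨ v - u = (1, 1)) → c u.1 u.2 ≠ c v.1 v.2 := by
      rintro c hc ⟨i, j⟩ ⟨i', j'⟩ h
      have hi := hc i
      have hi' := hc (i - 1)
      rw [sub_add_cancel] at hi'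
      simp only [Prod.mk_sub_mk, Prod.mk.injEq] at h
      rcases h with ⟨h2, h3⟩ | ⟨h2, h3⟩ | ⟨h2, h3⟩
      · have e1 : i' = i + 1 := by rw [← h2]; ring
        have e2 : j' = j := by rw [← sub_eq_zero]; exact h3
        subst e1; subst e2
        exact (hi.2.1 _).symm
      · have e1 : i' = i := by rw [← sub_eq_zero]; exact h2
        have e2 : j' = j + 1 := by rw [← h3]; ring
        subst e1; subst e2
        exact hi'.1 j
      · have e1 : i' = i + 1 := by rw [← h2]; ring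
        have e2 : j' = j + 1 := by rw [← h3]; ring
        subst e1; subst e2
        exact (hi.2.2 _).symm
    intro c hc u v huv
    rcases adj_fwd huv with h | h
    · exact h1 c hc u v h
    · exact (h1 c hc v u h).symm
  let mk : ∀ c : ZMod a → Row b, Cl RE c → (torusGrid a b).Coloring (Fin 5) :=
    fun c hc => SimpleGraph.Coloring.mk (fun u => c u.1 u.2) (hval c hc)
  have hmk : ∀ (c : ZMod a → Row b) (hc : Cl RE c) (u), mk c hc u = c u.1 u.2 :=
    fun c hc u => rfl
  have key : ∀ c c' : ZMod a → Row b, ReflTransGen (CS RE RD) c c' → ∀ (hc : Cl RE c)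
      (hc' : Cl RE c'), KempeEquivalent (mk c hc) (mk c' hc') := by
    intro c c' h
    induction h with
    | refl => intro _ _; exact ReflTransGen.refl
    | tail _ huv ih =>
      intro hc hc'
      obtain ⟨hu, hv, d, hd⟩ := huv
      refine (ih hc hu).trans ?_
      apply kempe_of_twoDiff d.1 d.2
      intro w hw
      exact hd w.1 w.2 hw
  have h3 := key _ _ (H _ _ (hcl φ) (hcl ψ)) (hcl φ) (hcl ψ)
  have h4 : ∀ φ : (torusGrid a b).Coloring (Fin 5), mk (fun i j => φ (i, j)) (hcl φ) = φ := by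
    intro φ
    apply RelHom.ext
    rintro ⟨i, j⟩
    rfl
  rw [h4, h4] at h3
  exact h3

end Pool.Agent.J4H93.KT
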