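import Pool.Agent.J4H93.KT.Defs

/-!
Two colourings that differ only by exchanging two colours on a set of vertices are Kempe
equivalent.
-/

namespace Pool.Agent.J4H93.KT

variable {V : Type*} {G : SimpleGraph V} {k : ℕ}

/-- `φ` and `ψ` differ only by exchanging `α` and `β` somewhere. -/
def TwoDiff (α β : Fin k) (φ ψ : V → Fin k) : Prop :=
  ∀ v, φ v ≠ ψ v → (φ v = α ∧ ψ v = β) ∨ (φ v = β ∧ ψ v = α)

open Classical in
theorem kempe_of_twoDiff_aux [Finite V] (α β : Fin k) (hαβ : α ≠ β) (n : ℕ) :
    ∀ φ ψ : G.Coloring (Fin k), {v | φ v ≠ ψ v}.ncard = n → TwoDiff α β φ ψ →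
      KempeEquivalent φ ψ := by
  induction n using Nat.strong_induction_on with
  | _ n ih =>
    intro φ ψ hn h
    by_cases hne : ∃ v, φ v ≠ ψ v
    · obtain ⟨v0, hv0⟩ := hne
      set S : Set V := {v | φ v = α ∨ φ v = β} with hS
      have hv0S : v0 ∈ S := by
        rcases h v0 hv0 with ⟨h1, _⟩ | ⟨h1, _⟩
        · exact Or.inl h1
        · exact Or.inr h1
      set C : (G.induce S).ConnectedComponent :=
        (G.induce S).connectedComponentMk ⟨v0, hv0S⟩ with hC
      set K : Set V := Subtype.val '' C.supp with hK
      -- closedness of the difference set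
      have hclosed : ∀ u w : S, (G.induce S).Adj u w → φ u.1 ≠ ψ u.1 → φ w.1 ≠ ψ w.1 := by
        intro u w huw hu hw
        have hadj : G.Adj u.1 w.1 := huw
        have h1 : φ u.1 ≠ φ w.1 := φ.valid hadj
        have h2 : ψ u.1 ≠ ψ w.1 := ψ.valid hadj
        have hwS : φ w.1 = α ∨ φ w.1 = β := w.2
        rcases h u.1 hu with ⟨h3, h4⟩ | ⟨h3, h4⟩
        · rcases hwS with h5 | h5
          · exact h1 (h3.trans h5.symm)
          · exact h2 (by rw [h4, ← hw, h5])
        · rcases hwS with h5 | h5
          · exact h2 (by rw [h4, ← hw, h5])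
          · exact h1 (h3.trans h5.symm)
      have hreach : ∀ u w : S, (G.induce S).Reachable u w → φ u.1 ≠ ψ u.1 → φ w.1 ≠ ψ w.1 := by
        intro u w huw hu
        obtain ⟨p⟩ := huw
        induction p with
        | nil => exact hu
        | cons hadj _ ihp => exact ihp (hclosed _ _ hadj hu)
      have hKS : ∀ v ∈ K, v ∈ S := by
        rintro v ⟨w, _, rfl⟩
        exact w.2
      have hKD : ∀ v ∈ K, φ v ≠ ψ v := by
        rintro v ⟨w, hw, rfl⟩
        have : (G.induce S).connectedComponentMk w = C := hw
        have hr : (G.induce S).Reachable ⟨v0, hv0S⟩ w := by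
          rw [hC] at this
          exact (SimpleGraph.ConnectedComponent.exact this).symm
        exact hreach _ _ hr hv0
      have hv0K : v0 ∈ K := ⟨⟨v0, hv0S⟩, rfl, rfl⟩
      have hKadj : ∀ u v, u ∈ K → G.Adj u v → v ∈ S → v ∈ K := by
        rintro u v ⟨w, hw, rfl⟩ hadj hv
        refine ⟨⟨v, hv⟩, ?_, rfl⟩
        have hw' : (G.induce S).connectedComponentMk w = C := hw
        show (G.induce S).connectedComponentMk ⟨v, hv⟩ = C
        rw [← hw']
        apply SimpleGraph.ConnectedComponent.sound
        have : (G.induce S).Adj ⟨v, hv⟩ w := hadj.symm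
        exact this.reachable
      -- the swapped colouring
      let f : V → Fin k := fun v => if v ∈ K then Equiv.swap α β (φ v) else φ v
      have hfS : ∀ v ∈ K, f v = α ∨ f v = β := by
        intro v hv
        have hv' := hKS v hv
        simp only [f, hv, if_true]
        rcases hv' with h1 | h1
        · right; rw [h1]; simp
        · left; rw [h1]; simp
      have hfvalid : ∀ {u v : V}, G.Adj u v → f u ≠ f v := by
        intro u v huv
        by_cases hu : u ∈ K <;> by_cases hv : v ∈ K
        · simp only [f, hu, hv, if_true]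
          intro h1
          exact φ.valid huv ((Equiv.swap α β).injective h1)
        · have h1 := hfS u hu
          have h2 : ¬ (φ v = α ∨ φ v = β) := fun h3 => hv (hKadj u v hu huv h3)
          have h3 : f v = φ v := by simp only [f, hv, if_false]
          intro h4
          rw [h4, h3] at h1
          exact h2 h1
        · have h1 := hfS v hv
          have h2 : ¬ (φ u = α ∨ φ u = β) := fun h3 => hu (hKadj v u hv huv.symm h3)
          have h3 : f u = φ u := by simp only [f, hu, if_false]
          intro h4
          rw [← h4, h3] at h1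
          exact h2 h1
        · simp only [f, hu, hv, if_false]
          exact φ.valid huv
      let φ' : G.Coloring (Fin k) := SimpleGraph.Coloring.mk f hfvalid
      have hφ' : ∀ v, φ' v = f v := fun v => rfl
      have hswap : KempeSwap φ φ' := by
        refine ⟨α, β, hαβ, C, ?_, ?_⟩
        · intro v hv
          rw [hφ']
          simp only [f]
          rw [if_pos hv]
        · intro v hv
          rw [hφ']
          simp only [f]
          rw [if_neg hv]
      have hfK : ∀ v ∈ K, φ' v = ψ v := by
        intro v hv
        rw [hφ']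
        simp only [f]
        rw [if_pos hv]
        rcases h v (hKD v hv) with ⟨h1, h2⟩ | ⟨h1, h2⟩
        · rw [h1, h2]; simp
        · rw [h1, h2]; simp
      have hfnK : ∀ v ∉ K, φ' v = φ v := by
        intro v hv
        rw [hφ']
        simp only [f]
        rw [if_neg hv]
      have hsub : {v | φ' v ≠ ψ v} ⊂ {v | φ v ≠ ψ v} := by
        refine ⟨?_, ?_⟩
        · intro v hv
          by_cases hvK : v ∈ K
          · exact hKD v hvK
          · have : φ' v ≠ ψ v := hv
            rw [hfnK v hvK] at this
            exact this
        · intro h1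
          have h2 : v0 ∈ {v | φ' v ≠ ψ v} := h1 hv0
          exact h2 (hfK v0 hv0K)
      have hcard : {v | φ' v ≠ ψ v}.ncard < n := by
        rw [← hn]
        exact Set.ncard_lt_ncard hsub (Set.toFinite _)
      have h' : TwoDiff α β φ' ψ := by
        intro v hv
        by_cases hvK : v ∈ K
        · exact absurd (hfK v hvK) hv
        · rw [hfnK v hvK] at hv ⊢
          exact h v hv
      exact Relation.ReflTransGen.head hswap (ih _ hcard φ' ψ rfl h')
    · push Not at hne
      have : φ = ψ := by
        apply RelHom.ext
        exact hne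
      rw [this]
      exact Relation.ReflTransGen.refl

theorem kempe_of_twoDiff [Finite V] (α β : Fin k) (φ ψ : G.Coloring (Fin k))
    (h : TwoDiff α β φ ψ) : KempeEquivalent φ ψ := by
  by_cases hαβ : α = β
  · have : φ = ψ := by
      apply RelHom.ext
      intro v
      by_contra hv
      rcases h v hv with ⟨h1, h2⟩ | ⟨h1, h2⟩
      · exact hv (by rw [h1, h2, hαβ])
      · exact hv (by rw [h1, h2, hαβ])
    rw [this]
    exact Relation.ReflTransGen.refl
  · exact kempe_of_twoDiff_aux α β hαβ _ φ ψ rfl h

end Pool.Agent.J4H93.KT
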