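import Pool.Agent.J4H93.KT.X3a
import Pool.Agent.J4H93.KT.Asm

namespace Pool.Agent.J4H93.KT.X3a

theorem k0 :
    k0chk 3 60 D3 P3 0 N1 = true := by
  decide +kernel

theorem l1 :
    below (fun n => lnkchk (dcf 3 60 C3 1057) N1 [] 24 200
      (get2 g1 58) (get2 c1 138) n) (3 * 60) = true := by
  decide +kernel

theorem l2 :
    below (fun n => lnkchk (dcf 3 60 C3 1057) N1 [get2 M2 58] 48 200
      (get2 g2 60) (get2 c2 426) n) (3 * 60) = true := by
  decide +kernel

theorem l3 :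
    below (fun n => lnkchk (dcf 3 60 C3 1057) N1 [get2 M3 60, get2 M2 58] 72 200
      (get2 g3 60) (get2 c3 642) n) (3 * 60) = true := by
  decide +kernel

theorem b2 :
    bchk A2 60 = true := by
  decide +kernel

theorem v2 :
    below (fun r => levchk 60 200 (prf 3 60 D3 P3) N1 A2
      (get2 g1 58) (get2 M2 58) (get2 o2 53) r) 60 = true := by
  decide +kernel

theorem b3 :
    bchk A3 60 = true := by
  decide +kernel

theorem v3 :
    below (fun r => levchk 60 200 (prf 3 60 D3 P3) A2 A3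
      (get2 g2 60) (get2 M3 60) (get2 o3 66) r) 60 = true := by
  decide +kernel

theorem f4 :
    below (fun r => finchk 200 (prf 3 60 D3 P3) A3
      (get2 g3 60) (get2 o4 54) r) 60 = true := by
  decide +kernel

theorem ne :
    nechk A3 60 = true := by
  decide +kernel

theorem rl :
    below (fun n => g2chk (dcf 3 60 C3 1057) (prf 3 60 D3 P3) (3 * 60) 200
      (get2 gl 59) (get2 cl 208) n) 60 = true := by
  decide +kernel

theorem rc :
    rcchk 3 60 D3 P3 (get2 gl 59) 200 0 ol = true := by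
  decide +kernel

theorem L1 : Lev RE RD (eR 3 60 D3) (3 * 60) N1 (eR 3 60 D3 0) [] N1 :=
  tab3.base 0 N1 k0

theorem L2 : Lev RE RD (eR 3 60 D3) (3 * 60) N1 (eR 3 60 D3 0) [get2 M2 58] A2 ∧ Bd 60 [get2 M2 58] :=
  tab3.next L1 (Bd_nil _) 24 200 200 _ _ _ _ b2 l1 v2

theorem L3 : Lev RE RD (eR 3 60 D3) (3 * 60) N1 (eR 3 60 D3 0) [get2 M3 60, get2 M2 58] A3 ∧ Bd 60 [get2 M3 60, get2 M2 58] :=
  tab3.next L2.1 L2.2 48 200 200 _ _ _ _ b3 l2 v3

theorem gd (z : Row 3) : Good RE RD (eR 3 60 D3 0) z 3 :=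
  tab3.fin L3.1 L3.2 72 200 200 _ _ _ l3 f4 z

theorem facts : Facts RE RD PrR 3 (eR 3 60 D3 0) where
  good := fun z _ => gd z
  ne := fun w hw => tab3.neF L3.1 ne w hw
  lr := fun z1 z2 h1 h2 h3 h4 => tab3.lrF 0 200 200 _ _ ol rl rc z1 z2 h1 h2 h3 h4

theorem fu :
    fuchk A3 60 = true := by
  decide +kernel

theorem cy :
    below (fun n => cyc3 3 60 D3 P3 0 n) 60 = true := by
  decide +kernel

theorem facts1 : Facts' RE RD PrR 3 (eR 3 60 D3 0) where
  good := tab3.goodAll L3.1 fu _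
  cyc := fun y hy => tab3.cyc3_sound ((below_iff _ _).1 cy) y hy

end Pool.Agent.J4H93.KT.X3a
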